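import Pool.Agent.K4H47.MM.Touch

/-!
# Counting the extreme points that are touched in one packing
-/

namespace Pool.Agent.K4H47.MM

open MeasureTheory Filter Topology
open scoped ENNReal
open Pool.Agent.H349R2.Tet Pool.Agent.TH219.DL

variable {K : Set V}

theorem three {b : Fin 3 → V} (hK : Body K) (hpk : ∀ u ∈ lat b, u ≠ 0 → ¬ Ov K u)
    {x x' y y' v : V} (hx : x ∈ K) (hx' : x' ∈ K) (hy : y ∈ K) (hy' : y' ∈ K) (hv : v ∈ lat b)
    (h : (3 : ℝ) • v = (x - x') - (y - y')) : v = 0 := by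
  by_contra hne
  obtain ⟨-, hc, w, hw⟩ := hK
  have hmid : ∀ a ∈ K, ∀ c ∈ K, (3 : ℝ)⁻¹ • (a + c + w) ∈ interior K := by
    intro a ha c hc'
    have h1 : (2 : ℝ)⁻¹ • a + (2 : ℝ)⁻¹ • c ∈ K := hc ha hc' (by norm_num) (by norm_num)
      (by norm_num)
    have h2 := hc.combo_interior_self_mem_interior hw h1 (a := (3 : ℝ)⁻¹) (b := 2 / 3)
      (by norm_num) (by norm_num) (by norm_num)
    have e : (3 : ℝ)⁻¹ • w + (2 / 3 : ℝ) • ((2 : ℝ)⁻¹ • a + (2 : ℝ)⁻¹ • c)
        = (3 : ℝ)⁻¹ • (a + c + w) := by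
      rw [smul_add (2 / 3 : ℝ), smul_smul, smul_smul]
      norm_num
      abel
    rwa [e] at h2
  refine hpk v hv hne ⟨(3 : ℝ)⁻¹ • (x + y' + w), hmid x hx y' hy', ?_⟩
  have e : (3 : ℝ)⁻¹ • (x + y' + w) - v = (3 : ℝ)⁻¹ • (x' + y + w) := by
    have h3 : v = (3 : ℝ)⁻¹ • ((x - x') - (y - y')) := by
      rw [← h, smul_smul]; norm_num
    rw [h3, ← smul_sub]
    congr 1
    abel
  rw [e]
  exact hmid x' hx' y hy

/-- integer coordinates modulo three -/
noncomputable def res3 (b : Fin 3 → V) (u : V) : Fin 3 → ZMod 3 :=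
  open Classical in
  if h : u ∈ lat b then fun i => ((h.choose i : ℤ) : ZMod 3) else 0

theorem res3_eq {b : Fin 3 → V} {u u' : V} (hu : u ∈ lat b) (hu' : u' ∈ lat b)
    (h : res3 b u = res3 b u') : ∃ v ∈ lat b, (3 : ℝ) • v = u - u' := by
  unfold res3 at h
  rw [dif_pos hu, dif_pos hu'] at h
  have hz := hu.choose_spec
  have hz' := hu'.choose_spec
  set z := hu.choose
  set z' := hu'.choose
  have hdiv : ∀ i, ∃ k : ℤ, z i - z' i = 3 * k := by
    intro i
    have h1 := congrFun h i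
    have h2 : ((z i - z' i : ℤ) : ZMod 3) = 0 := by
      push_cast
      rw [sub_eq_zero]
      exact h1
    rw [ZMod.intCast_zmod_eq_zero_iff_dvd] at h2
    obtain ⟨k, hk⟩ := h2
    exact ⟨k, by simpa using hk⟩
  choose k hk using hdiv
  refine ⟨∑ i, (k i : ℝ) • b i, ⟨k, rfl⟩, ?_⟩
  rw [hz, hz', ← Finset.sum_sub_distrib, Finset.smul_sum]
  refine Finset.sum_congr rfl fun i _ => ?_
  rw [smul_smul, ← sub_smul]
  congr 1
  have := hk i
  have h3 : ((z i - z' i : ℤ) : ℝ) = ((3 * k i : ℤ) : ℝ) := by rw [this]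
  push_cast at h3
  exact h3.symm

theorem res3_zero {b : Fin 3 → V} {u : V} (hu : u ∈ lat b) (h : res3 b u = 0) :
    ∃ v ∈ lat b, (3 : ℝ) • v = u := by
  unfold res3 at h
  rw [dif_pos hu] at h
  have hz := hu.choose_spec
  set z := hu.choose
  have hdiv : ∀ i, ∃ k : ℤ, z i = 3 * k := by
    intro i
    have h1 : ((z i : ℤ) : ZMod 3) = 0 := congrFun h i
    rw [ZMod.intCast_zmod_eq_zero_iff_dvd] at h1
    obtain ⟨k, hk⟩ := h1
    exact ⟨k, by simpa using hk⟩
  choose k hk using hdiv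
  refine ⟨∑ i, (k i : ℝ) • b i, ⟨k, rfl⟩, ?_⟩
  rw [hz, Finset.smul_sum]
  refine Finset.sum_congr rfl fun i _ => ?_
  rw [smul_smul, hk i]
  push_cast
  rfl

/-- the neighbours of `K` in a lattice packing -/
def Nbr (K : Set V) (b : Fin 3 → V) : Set V := {u | u ∈ lat b ∧ u ≠ 0 ∧ (K ∩ tr K u).Nonempty}

theorem nbr_card {b : Fin 3 → V} (hK : Body K) (hpk : ∀ u ∈ lat b, u ≠ 0 → ¬ Ov K u) :
    (Nbr K b).encard ≤ 26 := by
  classical
  have hmaps : Set.MapsTo (res3 b) (Nbr K b) ({0}ᶜ : Set (Fin 3 → ZMod 3)) := by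
    rintro u ⟨hu, hu0, x, hx, hxu⟩ h0
    obtain ⟨v, hv, hv3⟩ := res3_zero hu h0
    rw [mem_tr] at hxu
    have h1 := three hK hpk hx hxu hx hx hv (by rw [hv3]; abel)
    rw [h1, smul_zero] at hv3
    exact hu0 hv3.symm
  have hinj : Set.InjOn (res3 b) (Nbr K b) := by
    rintro u ⟨hu, hu0, x, hx, hxu⟩ u' ⟨hu', hu0', y, hy, hyu⟩ heq
    obtain ⟨v, hv, hv3⟩ := res3_eq hu hu' heq
    rw [mem_tr] at hxu hyu
    have h1 := three hK hpk hx hxu hy hyu hv (by rw [hv3]; abel)
    rw [h1, smul_zero] at hv3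
    exact (sub_eq_zero.1 hv3.symm)
  refine (Set.encard_le_encard_of_injOn hmaps hinj).trans ?_
  rw [Set.encard_eq_coe_toFinset_card]
  have : (({0}ᶜ : Set (Fin 3 → ZMod 3)).toFinset).card = 26 := by
    rw [Set.toFinset_compl, Finset.card_compl]
    simp [ZMod.card]
  rw [this]
  rfl

/-- a finite union bound -/
theorem encard_cover {α β : Type*} {E : Set α} {D : Set β} {A : β → Set α} {N : ℕ} (hN : N ≠ 0)
    (hA : ∀ S ∈ D, (A S).encard ≤ N) (hE : ∀ x ∈ E, ∃ S ∈ D, x ∈ A S) :
    E.encard ≤ N * D.encard := by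
  classical
  by_cases hD : D.Finite
  · induction D, hD using Set.Finite.induction_on generalizing E with
    | empty =>
      have : E = ∅ := by
        ext x
        simp only [Set.mem_empty_iff_false, iff_false]
        intro hx
        obtain ⟨S, hS, -⟩ := hE x hx
        exact hS
      simp [this]
    | @insert a s ha hs ih =>
      have h1 : E ⊆ A a ∪ {x | ∃ S ∈ s, x ∈ A S} := by
        intro x hx
        obtain ⟨S, hS, hxS⟩ := hE x hx
        rcases hS with rfl | hS
        · exact Or.inl hxS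
        · exact Or.inr ⟨S, hS, hxS⟩
      have h2 := ih (E := {x | ∃ S ∈ s, x ∈ A S}) (fun S hS => hA S (Or.inr hS)) (fun x hx => hx)
      calc E.encard ≤ (A a ∪ {x | ∃ S ∈ s, x ∈ A S}).encard := Set.encard_le_encard h1
        _ ≤ (A a).encard + ({x | ∃ S ∈ s, x ∈ A S} : Set α).encard := Set.encard_union_le _ _
        _ ≤ N + N * s.encard := add_le_add (hA a (Or.inl rfl)) h2
        _ = N * (insert a s).encard := by
          rw [Set.encard_insert_of_notMem ha, mul_add, mul_one, add_comm]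
  · have : D.encard = ⊤ := Set.encard_eq_top_iff.2 hD
    rw [this, ENat.mul_top (by exact_mod_cast hN)]
    exact le_top

/-- at most 52 extreme points are touched by translates in one lattice packing -/
theorem touchT_card {b : Fin 3 → V} (hK : Body K) (hpk : ∀ u ∈ lat b, u ≠ 0 → ¬ Ov K u)
    {S : Set (Bool × V)} (hS : ∀ u, (false, u) ∈ S → u ∈ lat b) :
    ({p | p ∈ K.extremePoints ℝ ∧ TouchT K S p} : Set V).encard ≤ 52 := by
  classical
  have h1 := encard_cover (E := {p | p ∈ K.extremePoints ℝ ∧ TouchT K S p}) (D := Nbr K b)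
    (A := fun u => {p | p ∈ K.extremePoints ℝ ∧ ∃ q, K ∩ tr K u = segment ℝ p q}) (N := 2)
    (by norm_num) ?_ ?_
  · refine h1.trans ?_
    have h2 := nbr_card hK hpk
    calc ((2 : ℕ) : ℕ∞) * (Nbr K b).encard ≤ ((2 : ℕ) : ℕ∞) * 26 := by gcongr
      _ ≤ 52 := by norm_num
  · intro u _
    by_cases hne : ∃ p, p ∈ K.extremePoints ℝ ∧ ∃ q, K ∩ tr K u = segment ℝ p q
    · obtain ⟨p0, hp0, q0, hq0⟩ := hne
      have hsub : {p | p ∈ K.extremePoints ℝ ∧ ∃ q, K ∩ tr K u = segment ℝ p q}
          ⊆ ({p0, q0} : Set V) := by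
        rintro p ⟨hp, q, hq⟩
        have hpC : p ∈ K ∩ tr K u := by rw [hq]; exact left_mem_segment ℝ p q
        have h3 : p ∈ (K ∩ tr K u).extremePoints ℝ :=
          inter_extremePoints_subset_extremePoints_of_subset Set.inter_subset_left ⟨hpC, hp⟩
        rw [hq0, ← convexHull_pair] at h3
        exact extremePoints_convexHull_subset h3
      refine (Set.encard_le_encard hsub).trans ?_
      refine (Set.encard_insert_le _ _).trans ?_
      rw [Set.encard_singleton]
      norm_num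
    · have : {p | p ∈ K.extremePoints ℝ ∧ ∃ q, K ∩ tr K u = segment ℝ p q} = ∅ := by
        ext p
        simp only [Set.mem_ofPred_eq, Set.mem_empty_iff_false, iff_false]
        exact fun h => hne ⟨p, h⟩
      rw [this]
      simp
  · rintro p ⟨hp, u, hu0, huS, q, hq⟩
    rw [mem_false] at hq
    exact ⟨u, ⟨hS u huS, hu0, by rw [hq]; exact ⟨p, left_mem_segment ℝ p q⟩⟩, hp, q, hq⟩

/-- at most 27 extreme points are touched by their own reflections in one double lattice packing -/
theorem touchR_card {v : V} {b : Fin 3 → V} (hK : Body K)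
    (hpk : ∀ u ∈ lat b, u ≠ 0 → ¬ Ov K u) :
    ({p | p ∈ K.extremePoints ℝ ∧ TouchR K (famLs v b) p} : Set V).encard ≤ 27 := by
  classical
  have hlat : ∀ p, TouchR K (famLs v b) p → (2 : ℝ) • p - v ∈ lat b := by
    rintro p ⟨h1, -⟩
    rcases h1 with ⟨h, -⟩ | ⟨-, u, hu, h⟩
    · simp at h
    · have h' : (2 : ℝ) • p = v + u := h
      rw [h', add_sub_cancel_left]
      exact hu
  have hinj : Set.InjOn (fun p => res3 b ((2 : ℝ) • p - v))
      {p | p ∈ K.extremePoints ℝ ∧ TouchR K (famLs v b) p} := by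
    rintro p ⟨hp, hpT⟩ p' ⟨hp', hpT'⟩ heq
    obtain ⟨w, hw, hw3⟩ := res3_eq (hlat p hpT) (hlat p' hpT') heq
    have h1 := three hK hpk hp.1 hp'.1 hp'.1 hp.1 hw (by
      rw [hw3, two_smul, two_smul]; abel)
    rw [h1, smul_zero] at hw3
    have h2 : (2 : ℝ) • (p - p') = 0 := by
      rw [smul_sub, hw3]; abel
    rcases smul_eq_zero.1 h2 with h | h
    · norm_num at h
    · exact sub_eq_zero.1 h
  have hmaps : Set.MapsTo (fun p => res3 b ((2 : ℝ) • p - v))
      {p | p ∈ K.extremePoints ℝ ∧ TouchR K (famLs v b) p}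
      (Set.univ : Set (Fin 3 → ZMod 3)) := fun _ _ => Set.mem_univ _
  refine (Set.encard_le_encard_of_injOn hmaps hinj).trans ?_
  rw [Set.encard_univ]
  simp [ENat.card_eq_coe_fintype_card, ZMod.card]

theorem hull_of_finite (hK : Body K) (h : (K.extremePoints ℝ).Finite) :
    K = convexHull ℝ (K.extremePoints ℝ) := by
  have h1 := closure_convexHull_extremePoints hK.1 hK.2.1
  rw [(h.isCompact_convexHull ℝ).isClosed.closure_eq] at h1
  exact h1.symm

/-- strictly convex bodies have uncountably many extreme points -/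
theorem strict_uncountable (hK : Body K) (hs : StrictConvex ℝ K) :
    ¬ (K.extremePoints ℝ).Countable := by
  intro hcount
  obtain ⟨hKc, hc, x0, hx0⟩ := hK
  -- frontier points are extreme points
  have hfr : frontier K ⊆ K.extremePoints ℝ := by
    intro x hx
    have hxK : x ∈ K := by
      have := frontier_subset_closure hx
      rwa [hKc.isClosed.closure_eq] at this
    refine ⟨hxK, ?_⟩
    intro a ha c hc' hmem
    by_contra hne
    have hac : a ≠ c := by
      rintro rfl
      rw [openSegment_same] at hmem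
      exact hne hmem.symm
    have h1 := hs.openSegment_subset ha hc' hac hmem
    exact hx.2 h1
  -- a frontier point in each direction `(1, t, 0)`
  have hdir : ∀ t : ℝ, ∃ s : ℝ, s ≠ 0 ∧ x0 + s • (![1, t, 0] : V) ∈ frontier K := by
    intro t
    have hcont : Continuous fun s : ℝ => x0 + s • (![1, t, 0] : V) := by fun_prop
    have hpre : IsPreconnected ((fun s : ℝ => x0 + s • (![1, t, 0] : V)) '' Set.univ) :=
      isPreconnected_univ.image _ hcont.continuousOn
    have hin : ((fun s : ℝ => x0 + s • (![1, t, 0] : V)) '' Set.univ ∩ interior K).Nonempty :=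
      ⟨x0, ⟨0, Set.mem_univ _, by simp⟩, hx0⟩
    have hout : ((fun s : ℝ => x0 + s • (![1, t, 0] : V)) '' Set.univ ∩ Kᶜ).Nonempty := by
      obtain ⟨M, hM⟩ := hKc.isBounded.subset_closedBall (0 : V)
      refine ⟨x0 + (|M| + |x0 0| + 1) • (![1, t, 0] : V), ⟨_, Set.mem_univ _, rfl⟩, ?_⟩
      intro h
      have h1 := hM h
      rw [mem_closedBall_zero_iff] at h1
      have h2 := (norm_le_pi_norm (x0 + (|M| + |x0 0| + 1) • (![1, t, 0] : V)) 0).trans h1
      simp only [Pi.add_apply, Pi.smul_apply, Matrix.cons_val_zero, smul_eq_mul, mul_one,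
        Real.norm_eq_abs] at h2
      have h3 := (abs_le.1 h2).2
      have h4 := neg_abs_le (x0 0)
      have h5 := le_abs_self M
      linarith
    have hex : ∃ s : ℝ, x0 + s • (![1, t, 0] : V) ∈ frontier K := by
      by_contra hno
      push Not at hno
      have hcov : (fun s : ℝ => x0 + s • (![1, t, 0] : V)) '' Set.univ ⊆ interior K ∪ Kᶜ := by
        rintro _ ⟨s, -, rfl⟩
        by_cases hsK : x0 + s • (![1, t, 0] : V) ∈ K
        · left
          by_contra hni
          exact hno s ⟨subset_closure hsK, hni⟩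
        · exact Or.inr hsK
      obtain ⟨y, -, hy1, hy2⟩ := hpre _ _ isOpen_interior hKc.isClosed.isOpen_compl hcov hin hout
      exact hy2 (interior_subset hy1)
    obtain ⟨s, hy⟩ := hex
    refine ⟨s, ?_, hy⟩
    rintro rfl
    have : x0 ∈ frontier K := by simpa using hy
    exact this.2 hx0
  choose s hs0 hsf using hdir
  have hinj : Function.Injective fun t : ℝ => x0 + s t • (![1, t, 0] : V) := by
    intro t t' h
    have h0 : s t • (![1, t, 0] : V) = s t' • (![1, t', 0] : V) := add_left_cancel h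
    have h1 := congrFun h0 0
    have h2 := congrFun h0 1
    simp only [Pi.smul_apply, Matrix.cons_val_zero, Matrix.cons_val_one, smul_eq_mul,
      mul_one] at h1 h2
    rw [← h1] at h2
    exact mul_left_cancel₀ (hs0 t) h2
  have h1 : (Set.range fun t : ℝ => x0 + s t • (![1, t, 0] : V)).Countable := by
    refine hcount.mono ?_
    rintro _ ⟨t, rfl⟩
    exact hfr (hsf t)
  have h2 : (Set.univ : Set ℝ).Countable := by
    rw [← Set.image_univ] at h1
    exact Set.countable_of_injective_of_countable_image hinj.injOn h1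
  exact Cardinal.not_countable_real h2

/-- assembling the structure theorem -/
theorem struct_of (hK : Body K) {D : Set (Set (Bool × V))} {T : Set (Bool × V) → V → Prop}
    {N : ℕ} (hN : N ≠ 0) (hcard : ∀ S ∈ D, ({p | p ∈ K.extremePoints ℝ ∧ T S p} : Set V).encard ≤ N)
    (htouch : ∀ p ∈ K.extremePoints ℝ, ∃ S ∈ D, T S p) : Struct K D T N := by
  have hc : (K.extremePoints ℝ).encard ≤ N * D.encard :=
    encard_cover hN hcard fun p hp => by
      obtain ⟨S, hS, hT⟩ := htouch p hp
      exact ⟨S, hS, hp, hT⟩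
  have hfin : D.Finite → (K.extremePoints ℝ).Finite := by
    intro hD
    rw [← Set.encard_lt_top_iff] at hD ⊢
    refine hc.trans_lt ?_
    exact WithTop.mul_lt_top (WithTop.coe_lt_top N) hD
  refine ⟨htouch, hc, fun hD => ⟨hfin hD, hull_of_finite hK (hfin hD)⟩, fun hD => ?_⟩
  suffices hcc : (K.extremePoints ℝ).Countable from
    ⟨hcc, fun hs => strict_uncountable hK hs hcc⟩
  have h1 : K.extremePoints ℝ ⊆ ⋃ S ∈ D, {p | p ∈ K.extremePoints ℝ ∧ T S p} := by
    intro p hp
    obtain ⟨S, hS, hT⟩ := htouch p hp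
    exact Set.mem_biUnion hS ⟨hp, hT⟩
  refine Set.Countable.mono h1 (hD.biUnion fun S hS => ?_)
  apply Set.Finite.countable
  rw [← Set.encard_lt_top_iff]
  exact (hcard S hS).trans_lt (by simp)

theorem struct_L (hK : Body K) (hmin : CutMin dL K) :
    Struct K (DensL K) (TouchT K) 52 := by
  refine struct_of hK (by norm_num) ?_ fun p hp => touch_L hK hmin hp
  rintro S ⟨b, hb, rfl, hp, -⟩
  exact touchT_card hK ((packL_iff hb).1 hp) fun u hu => hu.2

theorem struct_Ls (hK : Body K) (hmin : CutMin dLs K) :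
    Struct K (DensLs K) (fun S p => TouchT K S p ∨ TouchR K S p) 79 := by
  refine struct_of hK (by norm_num) ?_ fun p hp => touch_Ls hK hmin hp
  rintro S ⟨v, b, hb, rfl, hp, -⟩
  have hpk := (packLs_iff.1 hp).1
  have h1 := touchT_card hK hpk (S := famLs v b) (by
    rintro u (⟨-, hu⟩ | ⟨h, -⟩)
    · exact hu
    · simp at h)
  have h2 := touchR_card (v := v) hK hpk
  calc ({p | p ∈ K.extremePoints ℝ ∧ (TouchT K (famLs v b) p ∨ TouchR K (famLs v b) p)}
        : Set V).encard
      ≤ ({p | p ∈ K.extremePoints ℝ ∧ TouchT K (famLs v b) p} ∪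
          {p | p ∈ K.extremePoints ℝ ∧ TouchR K (famLs v b) p} : Set V).encard := by
        apply Set.encard_le_encard
        rintro p ⟨hp, h | h⟩
        · exact Or.inl ⟨hp, h⟩
        · exact Or.inr ⟨hp, h⟩
    _ ≤ 52 + 27 := (Set.encard_union_le _ _).trans (add_le_add h1 h2)
    _ ≤ ((79 : ℕ) : ℕ∞) := by norm_num

end Pool.Agent.K4H47.MM
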