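import Pool.Agent.K4H47.MM.Lim

/-!
# Extreme points of minimisers are touching points
-/

namespace Pool.Agent.K4H47.MM

open MeasureTheory Filter Topology
open scoped ENNReal
open Pool.Agent.H349R2.Tet Pool.Agent.TH219.DL

theorem abs_dt_pos {b : Fin 3 → V} (hb : LinearIndependent ℝ b) : 0 < |dt b| :=
  abs_pos.2 ((dt_ne_zero_iff b).2 hb)

theorem dens_real {A : Set V} (hA : IsCompact A) {b : Fin 3 → V} (hb : LinearIndependent ℝ b) :
    dens A b = ENNReal.ofReal ((volume A).toReal / |dt b|) := by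
  rw [dens_eq b hb A hA, ENNReal.ofReal_div_of_pos (abs_dt_pos hb),
    ENNReal.ofReal_toReal hA.measure_lt_top.ne]

theorem den_L {K : Set V} (hK : IsCompact K) {b : Fin 3 → V} (hb : LinearIndependent ℝ b) :
    den K (famL b) = ENNReal.ofReal ((volume K).toReal / |dt b|) := by
  rw [den_famL, dens_real hK hb]

theorem dt_eq_of_lat {b c : Fin 3 → V} (hb : LinearIndependent ℝ b) (hc : LinearIndependent ℝ c)
    (h : lat b = lat c) : |dt b| = |dt c| := by
  have hA : IsCompact (Metric.closedBall (0 : V) 1) := isCompact_closedBall 0 1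
  have h1 : dens (Metric.closedBall (0 : V) 1) b = dens (Metric.closedBall (0 : V) 1) c := by
    unfold dens
    rw [h]
  rw [dens_real hA hb, dens_real hA hc] at h1
  have hv : 0 < (volume (Metric.closedBall (0 : V) 1)).toReal := by
    apply ENNReal.toReal_pos
    · exact (Metric.measure_closedBall_pos volume 0 one_pos).ne'
    · exact hA.measure_lt_top.ne
  have hb0 := abs_dt_pos hb
  have hc0 := abs_dt_pos hc
  rw [ENNReal.ofReal_eq_ofReal_iff (by positivity) (by positivity),
    div_eq_div_iff hb0.ne' hc0.ne'] at h1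
  exact (mul_left_cancel₀ hv.ne' h1).symm

theorem packL_iff {K : Set V} {b : Fin 3 → V} (hb : LinearIndependent ℝ b) :
    IsPack K (famL b) ↔ ∀ u ∈ lat b, u ≠ 0 → ¬ Ov K u := by
  have h1 := packs_famL K b
  rw [packs_iff] at h1
  constructor
  · intro h
    exact (h1.1 ⟨hb, h⟩).2
  · intro h
    exact (h1.2 ⟨(dt_ne_zero_iff b).2 hb, h⟩).2

theorem packLs_iff {K : Set V} {v : V} {b : Fin 3 → V} :
    IsPack K (famLs v b) ↔ (∀ u ∈ lat b, u ≠ 0 → ¬ Ov K u) ∧ ∀ u ∈ lat b, ¬ Rv K (v + u) := by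
  constructor
  · intro h
    refine ⟨fun u hu hu0 => ?_, fun u hu => ?_⟩
    · rintro ⟨x, hx, hxu⟩
      have h1 := h (false, 0) (Or.inl ⟨rfl, pack_zero_mem b⟩) (false, u) (Or.inl ⟨rfl, hu⟩)
        (fun e => hu0 (congrArg Prod.snd e).symm)
      rw [interior_mem, interior_mem, Set.disjoint_left] at h1
      exact h1 (a := x) ⟨x, hx, by simp⟩ ⟨x - u, hxu, by simp⟩
    · rintro ⟨x, hx, hxu⟩
      have h1 := h (false, 0) (Or.inl ⟨rfl, pack_zero_mem b⟩) (true, v + u)
        (Or.inr ⟨rfl, u, hu, rfl⟩) (fun e => by simpa using congrArg Prod.fst e)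
      rw [interior_mem, interior_mem, Set.disjoint_left] at h1
      exact h1 (a := x) ⟨x, hx, by simp⟩ ⟨v + u - x, hxu, by simp⟩
  · rintro ⟨h1, h2⟩
    refine famLs_pack h1 fun s hs => ?_
    rw [← mem_true, interior_mem, Set.disjoint_left]
    rintro x hx ⟨y, hy, hxy⟩
    refine h2 s hs ⟨x, hx, ?_⟩
    have : v + s - x = y := by
      rw [← hxy]
      simp
    rw [this]
    exact hy

theorem vol_eq_two {K : Set V} (hK : Body K) {v : V}
    (hd : Disjoint (interior K) (interior (rfl' K v))) :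
    2 * volume K ≤ volume (K ∪ rfl' K v) := by
  obtain ⟨hKc, hc, -⟩ := hK
  have hrc : Convex ℝ (rfl' K v) := by
    rintro _ ⟨x, hx, rfl⟩ _ ⟨y, hy, rfl⟩ α β hα hβ hαβ
    refine ⟨α • x + β • y, hc hx hy hα hβ hαβ, ?_⟩
    have e : v = α • v + β • v := by rw [← add_smul, hαβ, one_smul]
    simp only [smul_sub]
    nth_rewrite 1 [e]
    abel
  calc 2 * volume K = volume (interior K) + volume (interior (rfl' K v)) := by
        rw [vol_int hc, vol_int hrc, vol_rfl hKc.measurableSet, two_mul]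
    _ = volume (interior K ∪ interior (rfl' K v)) :=
        (measure_union hd isOpen_interior.measurableSet).symm
    _ ≤ volume (K ∪ rfl' K v) :=
        measure_mono (Set.union_subset_union interior_subset interior_subset)

theorem den_Ls_le {K : Set V} (hK : IsCompact K) {v : V} {b : Fin 3 → V}
    (hb : LinearIndependent ℝ b) :
    den K (famLs v b) ≤ ENNReal.ofReal (2 * (volume K).toReal / |dt b|) := by
  classical
  have ha : ENNReal.ofReal (2 * (volume K).toReal / |dt b|)
      = dens K b + dens (rfl' K v) b := by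
    have h0 := abs_dt_pos hb
    rw [dens_real hK hb, dens_real (rfl_compact hK v) hb, vol_rfl hK.measurableSet,
      ← ENNReal.ofReal_add (by positivity) (by positivity)]
    congr 1
    ring
  rw [ha]
  have hfin1 : dens K b ≠ ⊤ := by rw [dens_real hK hb]; exact ENNReal.ofReal_ne_top
  have hfin2 : dens (rfl' K v) b ≠ ⊤ := by
    rw [dens_real (rfl_compact hK v) hb]; exact ENNReal.ofReal_ne_top
  apply ENNReal.le_of_forall_pos_le_add
  intro ε hε _
  have hε2 : (0 : ℝ≥0∞) < (ε : ℝ≥0∞) / 2 := by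
    apply ENNReal.div_pos
    · exact_mod_cast hε.ne'
    · simp
  have e1 : ∀ᶠ r : ℝ in atTop, (∑' u : lat b, volume (tr K u.1 ∩ Bl r)) / volume (Bl r)
      < dens K b + (ε : ℝ≥0∞) / 2 := by
    exact eventually_lt_of_limsup_lt (ENNReal.lt_add_right hfin1 hε2.ne')
  have e2 : ∀ᶠ r : ℝ in atTop, (∑' u : lat b, volume (tr (rfl' K v) u.1 ∩ Bl r)) / volume (Bl r)
      < dens (rfl' K v) b + (ε : ℝ≥0∞) / 2 := by
    exact eventually_lt_of_limsup_lt (ENNReal.lt_add_right hfin2 hε2.ne')
  unfold den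
  refine limsup_le_of_le (by isBoundedDefault) ?_
  filter_upwards [e1, e2] with r h1 h2
  -- the index map
  let f : lat b ⊕ lat b → famLs v b := fun s =>
    match s with
    | Sum.inl u => ⟨(false, u.1), Or.inl ⟨rfl, u.2⟩⟩
    | Sum.inr u => ⟨(true, v + u.1), Or.inr ⟨rfl, u.1, u.2, rfl⟩⟩
  have hsurj : Function.Surjective f := by
    rintro ⟨⟨s, c⟩, hp⟩
    rcases hp with ⟨hs, hc⟩ | ⟨hs, u, hu, hc⟩
    · exact ⟨Sum.inl ⟨c, hc⟩, Subtype.ext (Prod.ext hs.symm rfl)⟩
    · exact ⟨Sum.inr ⟨u, hu⟩, Subtype.ext (Prod.ext hs.symm hc.symm)⟩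
  have h3 : ∑' p : famLs v b, volume (mem K p.1 ∩ Bl r)
      ≤ (∑' u : lat b, volume (tr K u.1 ∩ Bl r))
        + ∑' u : lat b, volume (tr (rfl' K v) u.1 ∩ Bl r) := by
    refine (ENNReal.tsum_le_tsum_comp_of_surjective hsurj
      (fun p => volume (mem K p.1 ∩ Bl r))).trans ?_
    rw [Summable.tsum_sum (f := fun s => volume (mem K (f s).1 ∩ Bl r))
      ENNReal.summable ENNReal.summable]
    have e1 : ∀ u : lat b, volume (mem K (f (Sum.inl u)).1 ∩ Bl r)
        = volume (tr K u.1 ∩ Bl r) := by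
      intro u
      show volume (mem K (false, u.1) ∩ Bl r) = _
      rw [mem_false]
    have e2 : ∀ u : lat b, volume (mem K (f (Sum.inr u)).1 ∩ Bl r)
        = volume (tr (rfl' K v) u.1 ∩ Bl r) := by
      intro u
      show volume (mem K (true, v + u.1) ∩ Bl r) = _
      rw [mem_true]
    rw [tsum_congr e1, tsum_congr e2]
  calc (∑' p : famLs v b, volume (mem K p.1 ∩ Bl r)) / volume (Bl r)
      ≤ ((∑' u : lat b, volume (tr K u.1 ∩ Bl r))
        + ∑' u : lat b, volume (tr (rfl' K v) u.1 ∩ Bl r)) / volume (Bl r) :=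
        ENNReal.div_le_div_right h3 _
    _ = (∑' u : lat b, volume (tr K u.1 ∩ Bl r)) / volume (Bl r)
        + (∑' u : lat b, volume (tr (rfl' K v) u.1 ∩ Bl r)) / volume (Bl r) := ENNReal.add_div
    _ ≤ (dens K b + (ε : ℝ≥0∞) / 2) + (dens (rfl' K v) b + (ε : ℝ≥0∞) / 2) :=
        add_le_add h1.le h2.le
    _ = dens K b + dens (rfl' K v) b + ((ε : ℝ≥0∞) / 2 + (ε : ℝ≥0∞) / 2) := by ring
    _ = _ := by rw [ENNReal.add_halves]

theorem den_Ls {K : Set V} (hK : Body K) {v : V} {b : Fin 3 → V}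
    (hb : LinearIndependent ℝ b) (hp : IsPack K (famLs v b)) :
    den K (famLs v b) = ENNReal.ofReal (2 * (volume K).toReal / |dt b|) := by
  apply le_antisymm (den_Ls_le hK.1 hb)
  refine le_trans ?_ (den_famLs K v b)
  rw [dens_real (hK.1.union (rfl_compact hK.1 v)) hb]
  apply ENNReal.ofReal_le_ofReal
  have h0 := abs_dt_pos hb
  apply div_le_div_of_nonneg_right _ h0.le
  have hd : Disjoint (interior K) (interior (rfl' K v)) := by
    have h1 := hp (false, 0) (Or.inl ⟨rfl, pack_zero_mem b⟩) (true, v + 0)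
        (Or.inr ⟨rfl, 0, pack_zero_mem b, rfl⟩) (fun e => by simpa using congrArg Prod.fst e)
    rw [mem_false, mem_true] at h1
    have e : ∀ A : Set V, tr A 0 = A := by intro A; unfold tr; simp
    rwa [e, e] at h1
  have h1 := vol_eq_two hK hd
  have h2 := ENNReal.toReal_mono (hK.1.union (rfl_compact hK.1 v)).measure_lt_top.ne h1
  rwa [ENNReal.toReal_mul, ENNReal.toReal_ofNat] at h2

/-- packings have density at most one -/
theorem vol_le_dt {K : Set V} (hK : Body K) {b : Fin 3 → V} (hb : LinearIndependent ℝ b)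
    (h : ∀ u ∈ lat b, u ≠ 0 → ¬ Ov K u) : (volume K).toReal ≤ |dt b| := by
  classical
  by_contra hcon
  push Not at hcon
  have hc : Fintype.card (Fin 3) = Module.finrank ℝ V := by simp
  let B : Module.Basis (Fin 3) ℝ V := basisOfLinearIndependentOfCardEqFinrank hb hc
  have hB : ⇑B = b := coe_basisOfLinearIndependentOfCardEqFinrank hb hc
  have hfund := ZSpan.isAddFundamentalDomain' B volume
  have : Countable (Submodule.span ℤ (Set.range B)).toAddSubgroup := by
    change Countable (Submodule.span ℤ (Set.range B))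
    infer_instance
  have hlt : volume (ZSpan.fundamentalDomain B) < volume (interior K) := by
    rw [vol_int hK.2.1, ZSpan.volume_fundamentalDomain, hB,
      ← ENNReal.ofReal_toReal hK.1.measure_lt_top.ne]
    exact (ENNReal.ofReal_lt_ofReal_iff (vol_pos hK)).2 hcon
  obtain ⟨x, y, hxy, hnd⟩ := exists_pair_mem_lattice_not_disjoint_vadd hfund
    isOpen_interior.measurableSet.nullMeasurableSet hlt
  rw [Set.not_disjoint_iff] at hnd
  obtain ⟨z, hz1, hz2⟩ := hnd
  obtain ⟨a, ha, hza⟩ := hz1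
  obtain ⟨c, hc', hzc⟩ := hz2
  have hza' : (x : V) + a = z := hza
  have hzc' : (y : V) + c = z := hzc
  have hlat : ∀ w : (Submodule.span ℤ (Set.range B)).toAddSubgroup, (w : V) ∈ lat b := by
    intro w
    rw [lat_span, ← hB]
    exact w.2
  refine h ((y : V) - x) (pack_sub_mem (hlat y) (hlat x)) ?_ ⟨a, ha, ?_⟩
  · intro h0
    apply hxy
    exact Subtype.ext (sub_eq_zero.1 h0).symm
  · have : a - ((y : V) - x) = c := by
      have h1 : a = z - x := by rw [← hza']; abel
      rw [h1, ← hzc']; abel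
    rw [this]; exact hc'

end Pool.Agent.K4H47.MM
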