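import Mathlib
import Pool.Agent.H349R2.Tet.Pack
import Pool.Agent.H349R2.Tet.Dens1

/-!
# Selection of convergent bases for lattices without short vectors and of bounded determinant
-/

namespace Pool.Agent.K4H47.MM

open MeasureTheory Filter Topology
open Pool.Agent.H349R2.Tet

theorem lat_span (b : Fin 3 → V) : lat b = (Submodule.span ℤ (Set.range b) : Set V) := by
  ext x
  rw [SetLike.mem_coe, Submodule.mem_span_range_iff_exists_fun]
  constructor
  · rintro ⟨z, hz⟩
    refine ⟨z, ?_⟩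
    rw [hz]
    exact Finset.sum_congr rfl fun i _ => (Int.cast_smul_eq_zsmul ℝ (z i) (b i)).symm
  · rintro ⟨z, hz⟩
    refine ⟨z, ?_⟩
    rw [← hz]
    exact Finset.sum_congr rfl fun i _ => (Int.cast_smul_eq_zsmul ℝ (z i) (b i)).symm

theorem lat_add {b : Fin 3 → V} {u v : V} (hu : u ∈ lat b) (hv : v ∈ lat b) : u + v ∈ lat b := by
  rw [lat_span] at *
  exact Submodule.add_mem _ hu hv

theorem lat_neg {b : Fin 3 → V} {u : V} (hu : u ∈ lat b) : -u ∈ lat b := by
  rw [lat_span] at *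
  exact Submodule.neg_mem _ hu

theorem lat_zsmul {b : Fin 3 → V} {u : V} (n : ℤ) (hu : u ∈ lat b) : n • u ∈ lat b := by
  rw [lat_span] at *
  exact Submodule.smul_mem _ n hu

theorem lat_base (b : Fin 3 → V) (i : Fin 3) : b i ∈ lat b := by
  rw [lat_span]
  exact Submodule.subset_span ⟨i, rfl⟩

theorem lat_le {b c : Fin 3 → V} (h : ∀ i, c i ∈ lat b) : lat c ⊆ lat b := by
  rw [lat_span b, lat_span c]
  have : Submodule.span ℤ (Set.range c) ≤ Submodule.span ℤ (Set.range b) := by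
    rw [Submodule.span_le]
    rintro _ ⟨i, rfl⟩
    have := h i
    rwa [lat_span] at this
  exact this

/-- Minkowski's theorem for a slab-like body -/
theorem mink {b : Fin 3 → V} (hb : LinearIndependent ℝ b) {R s : ℝ} (hs : 0 < s) (hR0 : 0 < R)
    (φ : V →ₗ[ℝ] ℝ) (i : Fin 3) (hφ : φ (Pi.single i 1) ≠ 0)
    (hR : |dt b| * |φ (Pi.single i 1)| < R * s ^ 2) :
    ∃ x ∈ lat b, x ≠ 0 ∧ |φ x| ≤ R ∧ ∀ j ≠ i, |x j| ≤ s := by
  classical
  have hc : Fintype.card (Fin 3) = Module.finrank ℝ V := by simp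
  let B : Module.Basis (Fin 3) ℝ V := basisOfLinearIndependentOfCardEqFinrank hb hc
  have hB : ⇑B = b := coe_basisOfLinearIndependentOfCardEqFinrank hb hc
  have hfund := ZSpan.isAddFundamentalDomain' B volume
  have : Countable (Submodule.span ℤ (Set.range B)).toAddSubgroup := by
    change Countable (Submodule.span ℤ (Set.range B))
    infer_instance
  -- the matrix
  let A : Matrix (Fin 3) (Fin 3) ℝ :=
    fun j k => if j = i then φ (Pi.single k 1) else (1 : Matrix (Fin 3) (Fin 3) ℝ) j k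
  have hAdet : A.det = φ (Pi.single i 1) := by
    rw [Matrix.det_fin_three]
    fin_cases i <;> simp [A, Matrix.one_apply]
  let c : V := fun j => if j = i then R else s
  let S : Set V := (Matrix.toLin' A) ⁻¹' (Set.Icc (-c) c)
  have hA0 : LinearMap.det (Matrix.toLin' A) ≠ 0 := by
    rw [LinearMap.det_toLin', hAdet]; exact hφ
  have hvol : volume S = ENNReal.ofReal (|φ (Pi.single i 1)|⁻¹ * (8 * (R * s ^ 2))) := by
    have h1 := Measure.addHaar_preimage_linearMap (volume : Measure V) hA0 (Set.Icc (-c) c)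
    rw [show volume S = volume ((Matrix.toLin' A) ⁻¹' (Set.Icc (-c) c)) from rfl, h1,
      LinearMap.det_toLin', hAdet, Real.volume_Icc_pi, abs_inv,
      ENNReal.ofReal_mul (by positivity)]
    congr 1
    rw [← ENNReal.ofReal_prod_of_nonneg]
    · congr 1
      rw [Fin.prod_univ_three]
      fin_cases i <;> simp [c] <;> ring
    · intro j _
      simp only [Pi.neg_apply, sub_neg_eq_add]
      have : 0 ≤ c j := by
        simp only [c]; split_ifs
        · exact hR0.le
        · exact hs.le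
      linarith
  obtain ⟨⟨x, hx⟩, hx0, hxS⟩ := exists_ne_zero_mem_lattice_of_measure_mul_two_pow_lt_measure
    (s := S) hfund (by
      intro x hx
      simp only [S, Set.mem_preimage, Set.mem_Icc, map_neg] at hx ⊢
      exact ⟨neg_le_neg hx.2, by rw [neg_le]; exact hx.1⟩)
    ((convex_Icc (-c) c).linear_preimage _) (by
      rw [ZSpan.volume_fundamentalDomain, hvol]
      have h2 : Module.finrank ℝ V = 3 := by simp
      rw [h2]
      have h3 : (2 : ENNReal) ^ 3 = ENNReal.ofReal 8 := by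
        rw [show (8 : ℝ) = 2 ^ 3 by norm_num, ENNReal.ofReal_pow (by norm_num)]
        simp
      rw [h3, ← ENNReal.ofReal_mul (abs_nonneg _), hB]
      have h4 : 0 < |φ (Pi.single i 1)| := abs_pos.2 hφ
      rw [ENNReal.ofReal_lt_ofReal_iff (by positivity)]
      have h5 : (Matrix.of b).det = dt b := rfl
      rw [h5]
      rw [inv_mul_eq_div, lt_div_iff₀ h4]
      nlinarith)
  have h1 : Matrix.toLin' A x ∈ Set.Icc (-c) c := hxS
  refine ⟨x, ?_, ?_, ?_, ?_⟩
  · rw [lat_span, ← hB]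
    exact hx
  · intro h
    apply hx0
    exact Subtype.ext h
  · have h2 : Matrix.toLin' A x i = φ x := by
      rw [Matrix.toLin'_apply, Matrix.mulVec, dotProduct, φ.pi_apply_eq_sum_univ x]
      refine Finset.sum_congr rfl fun k _ => ?_
      simp only [A, if_true, smul_eq_mul]
      rw [mul_comm]
      congr 2
      ext l
      simp [Pi.single_apply, eq_comm]
    have h3 : c i = R := by simp [c]
    have h4 := h1.1 i
    have h5 := h1.2 i
    rw [h2] at h4 h5
    rw [Pi.neg_apply, h3] at h4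
    rw [h3] at h5
    exact abs_le.2 ⟨h4, h5⟩
  · intro j hj
    have h2 : Matrix.toLin' A x j = x j := by
      rw [Matrix.toLin'_apply, Matrix.mulVec, dotProduct]
      simp [A, hj, Matrix.one_apply]
    have h3 : c j = s := by simp [c, hj]
    have h4 := h1.1 j
    have h5 := h1.2 j
    rw [h2] at h4 h5
    rw [Pi.neg_apply, h3] at h4
    rw [h3] at h5
    exact abs_le.2 ⟨h4, h5⟩

variable (β : ℕ → Fin 3 → V) (U : Ultrafilter ℕ)

/-- the limits of lattice vectors along the ultrafilter -/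
def LimL : Submodule ℤ V where
  carrier := {x | ∃ f : ℕ → V, (∀ n, f n ∈ lat (β n)) ∧ Tendsto f U (𝓝 x)}
  add_mem' := by
    rintro x y ⟨f, hf, hfx⟩ ⟨g, hg, hgy⟩
    exact ⟨fun n => f n + g n, fun n => lat_add (hf n) (hg n), hfx.add hgy⟩
  zero_mem' := ⟨fun _ => 0, fun n => pack_zero_mem (β n), tendsto_const_nhds⟩
  smul_mem' := by
    rintro c x ⟨f, hf, hfx⟩
    exact ⟨fun n => c • f n, fun n => lat_zsmul c (hf n), hfx.const_smul c⟩

variable {β U}

theorem mem_limL {x : V} : x ∈ LimL β U ↔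
    ∃ f : ℕ → V, (∀ n, f n ∈ lat (β n)) ∧ Tendsto f U (𝓝 x) := Iff.rfl

theorem limL_short {r : ℝ} (h1 : ∀ n, ∀ u ∈ lat (β n), u ≠ 0 → r ≤ ‖u‖) {x : V}
    (hx : x ∈ LimL β U) (hxr : ‖x‖ < r) : x = 0 := by
  obtain ⟨f, hf, hfx⟩ := hx
  have h2 : ∀ᶠ n in (U : Filter ℕ), ‖f n‖ < r := hfx.norm.eventually_lt_const hxr
  have h3 : ∀ᶠ n in (U : Filter ℕ), f n = 0 := by
    filter_upwards [h2] with n hn
    by_contra hne
    exact absurd (h1 n (f n) (hf n) hne) (not_le.2 hn)
  have h4 : Tendsto f U (𝓝 0) := tendsto_const_nhds.congr' (h3.mono fun n hn => hn.symm)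
  exact tendsto_nhds_unique hfx h4

/-- bounded sequences converge along an ultrafilter -/
theorem ultra_lim {f : ℕ → V} {M : ℝ} (h : ∀ᶠ n in (U : Filter ℕ), ‖f n‖ ≤ M) :
    ∃ x : V, ‖x‖ ≤ M ∧ Tendsto f U (𝓝 x) := by
  have hK : IsCompact (Metric.closedBall (0 : V) M) := isCompact_closedBall 0 M
  have h1 : (Filter.map f U : Filter V) ≤ 𝓟 (Metric.closedBall 0 M) := by
    rw [Filter.le_principal_iff, Filter.mem_map]
    filter_upwards [h] with n hn
    simpa using hn
  obtain ⟨x, hx, hxl⟩ := hK.ultrafilter_le_nhds (U.map f) h1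
  exact ⟨x, by simpa using hx, hxl⟩

theorem limL_span {r D : ℝ} (hr : 0 < r) (hβ : ∀ n, LinearIndependent ℝ (β n))
    (h1 : ∀ n, ∀ u ∈ lat (β n), u ≠ 0 → r ≤ ‖u‖) (hD : ∀ n, |dt (β n)| ≤ D) :
    Submodule.span ℝ (LimL β U : Set V) = ⊤ := by
  by_contra hne
  obtain ⟨φ, hφ, hle⟩ := Submodule.exists_le_ker_of_lt_top _ (lt_top_iff_ne_top.2 hne)
  -- a coordinate with `φ e_i ≠ 0`
  have hi : ∃ i : Fin 3, φ (Pi.single i 1) ≠ 0 := by
    by_contra hcon
    push Not at hcon
    apply hφ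
    apply LinearMap.pi_ext'
    intro i
    apply LinearMap.ext_ring
    simpa using hcon i
  obtain ⟨i, hi⟩ := hi
  set a := φ (Pi.single i 1) with ha
  have ha0 : 0 < |a| := abs_pos.2 hi
  -- size of the functional
  set T : ℝ := ∑ j, |φ (Pi.single j 1)| with hT
  have hT0 : 0 ≤ T := Finset.sum_nonneg fun j _ => abs_nonneg _
  set s : ℝ := min (r / 2) (r * |a| / (2 * (T + 1))) with hs
  have hs0 : 0 < s := by
    rw [hs, lt_min_iff]
    constructor <;> positivity
  set R : ℝ := (|D| * |a| + 1) / s ^ 2 with hRdef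
  have hR0 : 0 < R := by positivity
  have hcond : ∀ n, |dt (β n)| * |a| < R * s ^ 2 := by
    intro n
    rw [hRdef, div_mul_cancel₀ _ (by positivity)]
    have : |dt (β n)| ≤ |D| := (hD n).trans (le_abs_self D)
    nlinarith [mul_le_mul_of_nonneg_right this ha0.le]
  -- Minkowski with bounded vectors
  have hex : ∀ n, ∃ x ∈ lat (β n), x ≠ 0 ∧ |φ x| ≤ R ∧ ∀ j ≠ i, |x j| ≤ s := fun n =>
    mink (hβ n) hs0 hR0 φ i hi (hcond n)
  choose f hf hf0 hfφ hfs using hex
  have hφsum : ∀ x : V, φ x = ∑ j, x j * φ (Pi.single j 1) := by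
    intro x
    rw [φ.pi_apply_eq_sum_univ x]
    refine Finset.sum_congr rfl fun k _ => ?_
    rw [smul_eq_mul]
    congr 2
    ext l
    simp [Pi.single_apply, eq_comm]
  have hcoord : ∀ (x : V) (Q : ℝ), |φ x| ≤ Q → (∀ j ≠ i, |x j| ≤ s) → |x i| * |a| ≤ Q + T * s := by
    intro x Q hQ hx
    have e1 : x i * a = φ x - ∑ j ∈ Finset.univ.erase i, x j * φ (Pi.single j 1) := by
      rw [hφsum x, ← Finset.add_sum_erase Finset.univ _ (Finset.mem_univ i)]
      ring
    rw [← abs_mul, e1]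
    have e2 : |∑ j ∈ Finset.univ.erase i, x j * φ (Pi.single j 1)| ≤ T * s := by
      calc |∑ j ∈ Finset.univ.erase i, x j * φ (Pi.single j 1)|
          ≤ ∑ j ∈ Finset.univ.erase i, |x j * φ (Pi.single j 1)| :=
            Finset.abs_sum_le_sum_abs _ _
        _ ≤ ∑ j ∈ Finset.univ.erase i, |φ (Pi.single j 1)| * s := by
            refine Finset.sum_le_sum fun j hj => ?_
            rw [abs_mul, mul_comm]
            exact mul_le_mul_of_nonneg_left (hx j (Finset.ne_of_mem_erase hj)) (abs_nonneg _)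
        _ ≤ ∑ j, |φ (Pi.single j 1)| * s :=
            Finset.sum_le_sum_of_subset_of_nonneg (Finset.subset_univ _)
              fun j _ _ => by positivity
        _ = T * s := by rw [hT, Finset.sum_mul]
    calc |φ x - ∑ j ∈ Finset.univ.erase i, x j * φ (Pi.single j 1)|
        ≤ |φ x| + |∑ j ∈ Finset.univ.erase i, x j * φ (Pi.single j 1)| := abs_sub _ _
      _ ≤ Q + T * s := add_le_add hQ e2
  set M : ℝ := max s ((R + T * s) / |a|) with hM
  have hfM : ∀ᶠ n in (U : Filter ℕ), ‖f n‖ ≤ M := by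
    refine Filter.Eventually.of_forall fun n => ?_
    rw [pi_norm_le_iff_of_nonneg (hs0.le.trans (le_max_left _ _))]
    intro j
    rw [Real.norm_eq_abs]
    by_cases hj : j = i
    · subst hj
      refine le_trans ?_ (le_max_right _ _)
      rw [le_div_iff₀ ha0]
      exact hcoord (f n) R (hfφ n) (hfs n)
    · exact (hfs n j hj).trans (le_max_left _ _)
  obtain ⟨x, -, hx⟩ := ultra_lim hfM
  have hxL : x ∈ LimL β U := ⟨f, hf, hx⟩
  have hxφ : φ x = 0 := by
    have : x ∈ LinearMap.ker φ := hle (Submodule.subset_span hxL)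
    exact this
  have hxs : ∀ j ≠ i, |x j| ≤ s := by
    intro j hj
    have h2 : Tendsto (fun n => |f n j|) U (𝓝 |x j|) :=
      ((continuous_apply j).tendsto x |>.comp hx).abs
    exact le_of_tendsto h2 (Filter.Eventually.of_forall fun n => hfs n j hj)
  have hxi : |x i| * |a| ≤ 0 + T * s := hcoord x 0 (by rw [hxφ, abs_zero]) hxs
  have hxr : r ≤ ‖x‖ := ge_of_tendsto hx.norm
    (Filter.Eventually.of_forall fun n => h1 n (f n) (hf n) (hf0 n))
  have hlt : ‖x‖ < r := by
    rw [pi_norm_lt_iff hr]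
    intro j
    rw [Real.norm_eq_abs]
    by_cases hj : j = i
    · subst hj
      have h3 : s ≤ r * |a| / (2 * (T + 1)) := min_le_right _ _
      have h4 : T * s < r * |a| := by
        have h5 : s * (2 * (T + 1)) ≤ r * |a| := by
          rwa [le_div_iff₀ (by positivity)] at h3
        nlinarith
      have h6 : |x j| * |a| < r * |a| := by linarith
      exact lt_of_mul_lt_mul_right h6 ha0.le
    · have h3 : s ≤ r / 2 := min_le_left _ _
      have := hxs j hj
      linarith
  exact absurd hxr (not_le.2 hlt)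

/-- **selection of convergent bases** -/
theorem select {r D : ℝ} (hr : 0 < r) (hβ : ∀ n, LinearIndependent ℝ (β n))
    (h1 : ∀ n, ∀ u ∈ lat (β n), u ≠ 0 → r ≤ ‖u‖) (hD : ∀ n, |dt (β n)| ≤ D) :
    ∃ (b : Fin 3 → V) (c : ℕ → Fin 3 → V), LinearIndependent ℝ b ∧ Tendsto c U (𝓝 b) ∧
      (∀ᶠ n in (U : Filter ℕ), lat (c n) = lat (β n)) ∧
      ∀ x, x ∈ lat b ↔ ∃ f : ℕ → V, (∀ n, f n ∈ lat (β n)) ∧ Tendsto f U (𝓝 x) := by
  classical
  have hdisc : DiscreteTopology (LimL β U) := by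
    rw [discreteTopology_iff_isOpen_singleton_zero]
    have : ({0} : Set (LimL β U)) = Subtype.val ⁻¹' (Metric.ball (0 : V) r) := by
      ext x
      simp only [Set.mem_singleton_iff, Set.mem_preimage, mem_ball_zero_iff]
      constructor
      · rintro rfl; simpa using hr
      · intro hx
        exact Subtype.ext (limL_short h1 x.2 hx)
    rw [this]
    exact Metric.isOpen_ball.preimage continuous_subtype_val
  have hz : IsZLattice ℝ (LimL β U) := ⟨limL_span hr hβ h1 hD⟩
  let b0 := IsZLattice.basis (LimL β U)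
  let B : Module.Basis (Fin 3) ℝ V := b0.ofZLatticeBasis ℝ (LimL β U)
  have hBs : Submodule.span ℤ (Set.range B) = LimL β U := b0.ofZLatticeBasis_span ℝ
  let b : Fin 3 → V := B
  have hb : LinearIndependent ℝ b := B.linearIndependent
  have hlatb : ∀ x, x ∈ lat b ↔ x ∈ LimL β U := by
    intro x
    rw [lat_span b]
    show x ∈ Submodule.span ℤ (Set.range B) ↔ _
    rw [hBs]
  have hbi : ∀ i, b i ∈ LimL β U := fun i => (hlatb _).1 (lat_base b i)
  choose f hf hfb using hbi
  let c : ℕ → Fin 3 → V := fun n i => f i n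
  have hc : Tendsto c U (𝓝 b) := tendsto_pi_nhds.2 fun i => hfb i
  refine ⟨b, c, hb, hc, ?_, fun x => hlatb x⟩
  have hcβ : ∀ n, lat (c n) ⊆ lat (β n) := fun n => lat_le fun i => hf i n
  by_contra hcon
  have hcon' : ∀ᶠ n in (U : Filter ℕ), ∃ x ∈ lat (β n), x ∉ lat (c n) := by
    have h2 := Ultrafilter.eventually_not.2 hcon
    filter_upwards [h2] with n hn
    by_contra h3
    push Not at h3
    exact hn (Set.Subset.antisymm (hcβ n) h3)
  -- linear independence of `c n`
  have hdt : Tendsto (fun n => dt (c n)) U (𝓝 (dt b)) := by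
    have : Continuous (fun b : Fin 3 → V => dt b) := by
      unfold dt
      exact Continuous.matrix_det (by exact continuous_id)
    exact (this.tendsto b).comp hc
  have hdt0 : dt b ≠ 0 := (dt_ne_zero_iff b).2 hb
  have hcli : ∀ᶠ n in (U : Filter ℕ), dt (c n) ≠ 0 := hdt.eventually_ne hdt0
  -- reduced vectors
  have hred : ∀ᶠ n in (U : Filter ℕ), ∃ τ : V, (∀ i, 0 ≤ τ i ∧ τ i ≤ 1) ∧
      ∑ i, τ i • c n i ∈ lat (β n) ∧ ∑ i, τ i • c n i ∉ lat (c n) := by
    filter_upwards [hcon', hcli] with n ⟨x, hx, hxc⟩ hn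
    have hli : LinearIndependent ℝ (c n) := (dt_ne_zero_iff _).1 hn
    have hcard : Fintype.card (Fin 3) = Module.finrank ℝ V := by simp
    let C : Module.Basis (Fin 3) ℝ V := basisOfLinearIndependentOfCardEqFinrank hli hcard
    have hC : ⇑C = c n := coe_basisOfLinearIndependentOfCardEqFinrank hli hcard
    have hxsum : x = ∑ i, C.repr x i • c n i := by
      conv_lhs => rw [← C.sum_repr x]
      rw [hC]
    have e0 : ∑ i, Int.fract (C.repr x i) • c n i
          + ∑ i, (⌊C.repr x i⌋ : ℝ) • c n i = x := by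
      refine Eq.trans ?_ hxsum.symm
      rw [← Finset.sum_add_distrib]
      refine Finset.sum_congr rfl fun i _ => ?_
      rw [← add_smul, Int.fract_add_floor]
    refine ⟨fun i => Int.fract (C.repr x i), fun i => ⟨Int.fract_nonneg _,
      (Int.fract_lt_one _).le⟩, ?_, ?_⟩
    · have e : ∑ i, Int.fract (C.repr x i) • c n i
          = x - ∑ i, (⌊C.repr x i⌋ : ℝ) • c n i := eq_sub_of_add_eq e0
      rw [e]
      refine pack_sub_mem hx (hcβ n ⟨fun i => ⌊C.repr x i⌋, rfl⟩)
    · intro hmem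
      apply hxc
      rw [← e0]
      exact lat_add hmem ⟨fun i => ⌊C.repr x i⌋, rfl⟩
  -- choose the coefficients
  have hch : ∃ τ : ℕ → V, ∀ᶠ n in (U : Filter ℕ), (∀ i, 0 ≤ τ n i ∧ τ n i ≤ 1) ∧
      ∑ i, τ n i • c n i ∈ lat (β n) ∧ ∑ i, τ n i • c n i ∉ lat (c n) := by
    refine ⟨fun n => if h : ∃ τ : V, (∀ i, 0 ≤ τ i ∧ τ i ≤ 1) ∧
      ∑ i, τ i • c n i ∈ lat (β n) ∧ ∑ i, τ i • c n i ∉ lat (c n) then h.choose else 0, ?_⟩
    filter_upwards [hred] with n hn
    rw [dif_pos hn]
    exact hn.choose_spec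
  obtain ⟨τ, hτ⟩ := hch
  have hτ1 : ∀ᶠ n in (U : Filter ℕ), ‖τ n‖ ≤ 1 := by
    filter_upwards [hτ] with n hn
    rw [pi_norm_le_iff_of_nonneg zero_le_one]
    intro i
    rw [Real.norm_eq_abs, abs_le]
    exact ⟨by linarith [(hn.1 i).1], (hn.1 i).2⟩
  obtain ⟨t, -, ht⟩ := ultra_lim hτ1
  have hsum : Tendsto (fun n => ∑ i, τ n i • c n i) U (𝓝 (∑ i, t i • b i)) := by
    refine tendsto_finsetSum _ fun i _ => ?_
    exact (((continuous_apply i).tendsto t).comp ht).smul (((continuous_apply i).tendsto b).comp hc)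
  have hmem : ∑ i, t i • b i ∈ LimL β U := by
    refine ⟨fun n => if ∑ i, τ n i • c n i ∈ lat (β n) then ∑ i, τ n i • c n i else 0, ?_, ?_⟩
    · intro n
      beta_reduce
      split_ifs with h
      · exact h
      · exact pack_zero_mem _
    · refine hsum.congr' ?_
      filter_upwards [hτ] with n hn
      rw [if_pos hn.2.1]
  obtain ⟨z, hz'⟩ := (hlatb _).2 hmem
  have ht' : ∀ i, t i = z i := by
    intro i
    have h2 : ∑ i, (t i - z i) • b i = 0 := by
      simp only [sub_smul, Finset.sum_sub_distrib, hz', sub_self]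
    have h3 := (Fintype.linearIndependent_iff.1 hb) (fun i => t i - z i) h2 i
    linarith
  have hdiff : Tendsto (fun n => ∑ i, τ n i • c n i - ∑ i, (z i : ℝ) • c n i) U (𝓝 0) := by
    have h2 : Tendsto (fun n => ∑ i, (z i : ℝ) • c n i) U (𝓝 (∑ i, (z i : ℝ) • b i)) :=
      tendsto_finsetSum _ fun i _ => tendsto_const_nhds.smul
        (((continuous_apply i).tendsto b).comp hc)
    have h3 := hsum.sub h2
    rw [hz', sub_self] at h3
    exact h3
  have hsmall : ∀ᶠ n in (U : Filter ℕ), ‖∑ i, τ n i • c n i - ∑ i, (z i : ℝ) • c n i‖ < r := by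
    have := hdiff.norm
    rw [norm_zero] at this
    exact this.eventually_lt_const hr
  obtain ⟨n, hn1, hn2⟩ := (hτ.and hsmall).exists
  have hzc : ∑ i, (z i : ℝ) • c n i ∈ lat (c n) := ⟨z, rfl⟩
  have h0 : ∑ i, τ n i • c n i - ∑ i, (z i : ℝ) • c n i = 0 := by
    by_contra hne
    exact absurd (h1 n _ (pack_sub_mem hn1.2.1 (hcβ n hzc)) hne) (not_le.2 hn2)
  exact hn1.2.2 (by rw [sub_eq_zero.1 h0]; exact hzc)

end Pool.Agent.K4H47.MM
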