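import Pool.Agent.TH219.DL.Defs

/-!
# Minimisers of the lattice and double lattice packing densities: definitions
-/

namespace Pool.Agent.K4H47.MM

open MeasureTheory
open scoped ENNReal
open Pool.Agent.H349R2.Tet (V lat)
open Pool.Agent.TH219.DL

/-- `δ K ≤ δ K'` for all convex bodies `K'` inside `K` for which `K ∖ K'` has small volume -/
def CutMin (δ : Set V → ℝ≥0∞) (K : Set V) : Prop :=
  ∃ η : ℝ, 0 < η ∧ ∀ K' : Set V, Body K' → K' ⊆ K → volume (K \ K') ≤ ENNReal.ofReal η →
    δ K ≤ δ K'

/-- the densest lattice packings of `K`, as families of members -/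
def DensL (K : Set V) : Set (Set (Bool × V)) :=
  {S | ∃ b : Fin 3 → V, LinearIndependent ℝ b ∧ S = famL b ∧ IsPack K S ∧ den K S = dL K}

/-- the densest packings `K + u`, `v - K + u`, `u` in a lattice, as families of members -/
def DensLs (K : Set V) : Set (Set (Bool × V)) :=
  {S | ∃ (v : V) (b : Fin 3 → V), LinearIndependent ℝ b ∧ S = famLs v b ∧ IsPack K S ∧
    den K S = dLs K}

/-- some translate in the family `S` meets `K` exactly in a segment (possibly a point) that ends in
`p` -/
def TouchT (K : Set V) (S : Set (Bool × V)) (p : V) : Prop :=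
  ∃ u : V, u ≠ 0 ∧ (false, u) ∈ S ∧ ∃ q : V, K ∩ mem K (false, u) = segment ℝ p q

/-- the reflection of `K` in the point `p` belongs to the family `S` and meets `K` only in `p` -/
def TouchR (K : Set V) (S : Set (Bool × V)) (p : V) : Prop :=
  (true, (2 : ℝ) • p) ∈ S ∧ K ∩ mem K (true, (2 : ℝ) • p) = {p}

/-- The structure theorem for `K` and its set `D` of densest packings: all extreme points of `K`
are touching points in densest packings, there are at most `N` of them for each densest packing;
`K` is a polytope or `D` is infinite; `K` has countably many extreme points, and is not strictly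
convex, or `D` is uncountable. -/
structure Struct (K : Set V) (D : Set (Set (Bool × V))) (T : Set (Bool × V) → V → Prop)
    (N : ℕ) : Prop where
  touch : ∀ p ∈ K.extremePoints ℝ, ∃ S ∈ D, T S p
  card : (K.extremePoints ℝ).encard ≤ N * D.encard
  polytope : D.Finite → (K.extremePoints ℝ).Finite ∧ K = convexHull ℝ (K.extremePoints ℝ)
  countable : D.Countable → (K.extremePoints ℝ).Countable ∧ ¬ StrictConvex ℝ K

end Pool.Agent.K4H47.MM
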