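import Pool.Agent.K4H47.MM.Comp
import Pool.Agent.TH219.DL.Bridge
import Pool.Agent.Helper150.Cb.CompactHull

/-!
# Cutting a neighbourhood of an extreme point, overlaps, contact segments
-/

namespace Pool.Agent.K4H47.MM

open MeasureTheory Filter Topology
open Pool.Agent.H349R2.Tet Pool.Agent.TH219.DL

variable {K : Set V} {p : V} {δ : ℝ}

/-- `K` with a neighbourhood of `p` cut off -/
def Cut (K : Set V) (p : V) (δ : ℝ) : Set V := convexHull ℝ (K \ Metric.ball p δ)

theorem cut_subset (hc : Convex ℝ K) : Cut K p δ ⊆ K := convexHull_min Set.sdiff_subset hc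

theorem cut_compact (hK : IsCompact K) : IsCompact (Cut K p δ) :=
  Pool.Agent.Helper150.Cb.PartCompactHull.compact_hull (hK.diff Metric.isOpen_ball)

theorem cut_convex : Convex ℝ (Cut K p δ) := convex_convexHull ℝ _

theorem subset_cut : K \ Metric.ball p δ ⊆ Cut K p δ := subset_convexHull ℝ _

theorem notMem_cut (hc : Convex ℝ K) (hp : p ∈ K.extremePoints ℝ) (hδ : 0 < δ) :
    p ∉ Cut K p δ := by
  intro h
  have h1 := inter_extremePoints_subset_extremePoints_of_subset (cut_subset hc) ⟨h, hp⟩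
  have h2 := extremePoints_convexHull_subset h1
  exact h2.2 (Metric.mem_ball_self hδ)

theorem int_cut {x : V} (hx : x ∈ interior K) (hd : x ∉ Metric.closedBall p δ) :
    x ∈ interior (Cut K p δ) := by
  rw [mem_interior]
  refine ⟨interior K \ Metric.closedBall p δ, ?_, isOpen_interior.sdiff Metric.isClosed_closedBall,
    hx, hd⟩
  intro y hy
  exact subset_cut ⟨interior_subset hy.1, fun h => hy.2 (Metric.ball_subset_closedBall h)⟩

theorem closure_int (hc : Convex ℝ K) (hne : (interior K).Nonempty) :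
    K ⊆ closure (interior K) := by
  rw [hc.closure_interior_eq_closure_of_nonempty_interior hne]
  exact subset_closure

theorem notMem_int (hp : p ∈ K.extremePoints ℝ) : p ∉ interior K := by
  intro h
  rw [mem_interior_iff_mem_nhds, Metric.mem_nhds_iff] at h
  obtain ⟨ε, hε, hball⟩ := h
  let e : V := fun _ => ε / 2
  have he : ‖e‖ ≤ ε / 2 := by
    rw [pi_norm_le_iff_of_nonneg (by positivity)]
    intro i
    simp only [e, Real.norm_eq_abs]
    rw [abs_of_pos (by positivity)]
  have h1 : p + e ∈ K := hball (by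
    rw [mem_ball_iff_norm]; simp only [add_sub_cancel_left]; linarith)
  have h2 : p - e ∈ K := hball (by
    rw [mem_ball_iff_norm]; simp only [sub_sub_cancel_left, norm_neg]; linarith)
  have h3 : p ∈ openSegment ℝ (p + e) (p - e) := by
    refine ⟨1 / 2, 1 / 2, by norm_num, by norm_num, by norm_num, ?_⟩
    rw [smul_add, smul_sub]
    have : (1 / 2 : ℝ) • p + (1 / 2 : ℝ) • p = p := by rw [← add_smul]; norm_num
    calc (1 / 2 : ℝ) • p + (1 / 2 : ℝ) • e + ((1 / 2 : ℝ) • p - (1 / 2 : ℝ) • e)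
        = (1 / 2 : ℝ) • p + (1 / 2 : ℝ) • p := by abel
      _ = p := this
  have h4 := hp.2 h1 h2 h3
  have h5 : e = 0 := by simpa using h4
  have h6 : e 0 = 0 := by rw [h5]; rfl
  simp only [e] at h6
  linarith

theorem vol_cut_lt (hK : Body K) (hp : p ∈ K.extremePoints ℝ) (hδ : 0 < δ) :
    volume (Cut K p δ) < volume K := by
  obtain ⟨hKc, hc, hne⟩ := hK
  have h1 : IsOpen ((Cut K p δ)ᶜ) := (cut_compact hKc).isClosed.isOpen_compl
  have h2 : p ∈ closure (interior K) := closure_int hc hne hp.1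
  obtain ⟨y, hy1, hy2⟩ := mem_closure_iff.1 h2 _ h1 (notMem_cut hc hp hδ)
  have h3 : 0 < volume ((Cut K p δ)ᶜ ∩ interior K) :=
    (h1.inter isOpen_interior).measure_pos volume ⟨y, hy1, hy2⟩
  have h4 : volume (Cut K p δ) + volume ((Cut K p δ)ᶜ ∩ interior K) ≤ volume K := by
    rw [← measure_union (Set.disjoint_left.2 fun x hx hx' => hx'.1 hx)
      (h1.inter isOpen_interior).measurableSet]
    refine measure_mono (Set.union_subset (cut_subset hc) ?_)
    exact Set.inter_subset_right.trans interior_subset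
  have h5 : volume (Cut K p δ) ≠ ⊤ := (cut_compact hKc).measure_lt_top.ne
  exact lt_of_lt_of_le (ENNReal.lt_add_right h5 h3.ne') h4

/-- **localisation**: if the cut bodies do not overlap, then the overlap of the whole bodies is
close to `p` in one of them -/
theorem ov_loc {u : V} (hc : Convex ℝ K) (hno : ¬ Ov (Cut K p δ) u) (hu : 2 * δ < ‖u‖) :
    (∀ x ∈ interior K, x - u ∈ interior K → x ∈ Metric.closedBall p δ) ∨
      (∀ x ∈ interior K, x - u ∈ interior K → x - u ∈ Metric.closedBall p δ) := by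
  by_contra hcon
  push Not at hcon
  obtain ⟨⟨x, hx, hxu, hxp⟩, ⟨y, hy, hyu, hyp⟩⟩ := hcon
  let O : Set V := interior K ∩ (fun x => x - u) ⁻¹' (interior K)
  have hO : Convex ℝ O := by
    refine hc.interior.inter ?_
    have : (fun x : V => x - u) = fun x => x + (-u) := by funext x; rw [sub_eq_add_neg]
    rw [this]
    exact hc.interior.translate_preimage_left (-u)
  have hcov : O ⊆ Metric.closedBall p δ ∪ (fun x => x - u) ⁻¹' (Metric.closedBall p δ) := by
    intro z hz
    by_contra hcon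
    rw [Set.mem_union, not_or] at hcon
    exact hno ⟨z, int_cut hz.1 hcon.1, int_cut hz.2 hcon.2⟩
  have hxO : x ∈ O := ⟨hx, hxu⟩
  have hyO : y ∈ O := ⟨hy, hyu⟩
  have h1 := isPreconnected_closed_iff.1 hO.isPreconnected _ _ Metric.isClosed_closedBall
    (Metric.isClosed_closedBall.preimage (by fun_prop : Continuous fun x : V => x - u)) hcov
    ⟨y, hyO, (hcov hyO).resolve_right hyp⟩ ⟨x, hxO, (hcov hxO).resolve_left hxp⟩
  obtain ⟨z, -, hz1, hz2⟩ := h1
  rw [Metric.mem_closedBall, dist_eq_norm] at hz1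
  have hz2' : ‖z - u - p‖ ≤ δ := by
    have : z - u ∈ Metric.closedBall p δ := hz2
    rwa [Metric.mem_closedBall, dist_eq_norm] at this
  have : ‖u‖ ≤ 2 * δ := by
    calc ‖u‖ = ‖(z - p) - (z - u - p)‖ := by congr 1; abel
      _ ≤ ‖z - p‖ + ‖z - u - p‖ := norm_sub_le _ _
      _ ≤ 2 * δ := by linarith
  linarith

/-- near an inner point of a triangle in a supporting plane `K` fills a half ball -/
theorem half_ball (hc : Convex ℝ K) {a0 a1 a2 y : V} (h0 : a0 ∈ K) (h1 : a1 ∈ K) (h2 : a2 ∈ K)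
    (hy : y ∈ K) (φ : V →ₗ[ℝ] ℝ) {h : ℝ} (e0 : φ a0 = h) (e1 : φ a1 = h) (e2 : φ a2 = h)
    (ey : φ y < h) (hli : LinearIndependent ℝ ![a1 - a0, a2 - a0]) :
    ∃ r > 0, ∀ x, ‖x - (3 : ℝ)⁻¹ • (a0 + a1 + a2)‖ < r → φ x < h → x ∈ interior K := by
  have hli3 : LinearIndependent ℝ ![a1 - a0, a2 - a0, y - a0] := by
    rw [Fintype.linearIndependent_iff]
    intro g hg
    rw [Fin.sum_univ_three] at hg
    change g 0 • (a1 - a0) + g 1 • (a2 - a0) + g 2 • (y - a0) = 0 at hg
    have h3 := congrArg φ hg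
    simp only [map_add, map_smul, map_sub, map_zero, e0, e1, e2, sub_self, zero_add,
      smul_eq_mul, mul_zero] at h3
    have h4 : g 2 = 0 := by
      rcases mul_eq_zero.1 h3 with h | h
      · exact h
      · linarith
    rw [h4, zero_smul, add_zero] at hg
    have h5 := (Fintype.linearIndependent_iff.1 hli) ![g 0, g 1] (by
      simpa [Fin.sum_univ_two] using hg)
    intro i
    fin_cases i
    · simpa using h5 0
    · simpa using h5 1
    · simpa using h4
  have hcard : Fintype.card (Fin 3) = Module.finrank ℝ V := by simp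
  let E : Module.Basis (Fin 3) ℝ V := basisOfLinearIndependentOfCardEqFinrank hli3 hcard
  have hE : ⇑E = ![a1 - a0, a2 - a0, y - a0] := coe_basisOfLinearIndependentOfCardEqFinrank _ _
  let t : Fin 3 → V → ℝ := fun i x => E.repr (x - a0) i
  have ht : ∀ i, Continuous (t i) := by
    intro i
    have : Continuous (E.coord i) := LinearMap.continuous_of_finiteDimensional _
    exact this.comp (by fun_prop : Continuous fun x : V => x - a0)
  set c0 : V := (3 : ℝ)⁻¹ • (a0 + a1 + a2) with hc0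
  have hsum : ∀ x, x = a0 + (t 0 x • (a1 - a0) + t 1 x • (a2 - a0) + t 2 x • (y - a0)) := by
    intro x
    have h3 := E.sum_repr (x - a0)
    rw [Fin.sum_univ_three, hE] at h3
    change t 0 x • (a1 - a0) + t 1 x • (a2 - a0) + t 2 x • (y - a0) = x - a0 at h3
    have h4 : x = a0 + (x - a0) := by abel
    conv_lhs => rw [h4, ← h3]
  have hE0 : E 0 = a1 - a0 := by rw [hE]; rfl
  have hE1 : E 1 = a2 - a0 := by rw [hE]; rfl
  have hc0' : c0 - a0 = (3 : ℝ)⁻¹ • E 0 + (3 : ℝ)⁻¹ • E 1 := by
    rw [hE0, hE1, hc0]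
    have : a0 = (3 : ℝ)⁻¹ • a0 + (3 : ℝ)⁻¹ • a0 + (3 : ℝ)⁻¹ • a0 := by
      rw [← add_smul, ← add_smul]; norm_num
    calc (3 : ℝ)⁻¹ • (a0 + a1 + a2) - a0
        = (3 : ℝ)⁻¹ • (a0 + a1 + a2) - ((3 : ℝ)⁻¹ • a0 + (3 : ℝ)⁻¹ • a0 + (3 : ℝ)⁻¹ • a0) := by
          rw [← this]
      _ = _ := by simp only [smul_add, smul_sub]; abel
  have ht0 : t 0 c0 = 3⁻¹ := by
    simp only [t, hc0', map_add, map_smul, Module.Basis.repr_self, Finsupp.add_apply,
      Finsupp.smul_apply]
    simp
  have ht1 : t 1 c0 = 3⁻¹ := by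
    simp only [t, hc0', map_add, map_smul, Module.Basis.repr_self, Finsupp.add_apply,
      Finsupp.smul_apply]
    simp
  have ht2 : t 2 c0 = 0 := by
    simp only [t, hc0', map_add, map_smul, Module.Basis.repr_self, Finsupp.add_apply,
      Finsupp.smul_apply]
    simp
  have ho : IsOpen {x : V | 0 < t 0 x ∧ 0 < t 1 x ∧ t 0 x + t 1 x + t 2 x < 1} := by
    have hcont : Continuous fun x => t 0 x + t 1 x + t 2 x := ((ht 0).add (ht 1)).add (ht 2)
    exact (isOpen_lt continuous_const (ht 0)).inter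
      ((isOpen_lt continuous_const (ht 1)).inter (isOpen_lt hcont continuous_const))
  have hmem : c0 ∈ {x : V | 0 < t 0 x ∧ 0 < t 1 x ∧ t 0 x + t 1 x + t 2 x < 1} := by
    simp only [Set.mem_ofPred_eq, ht0, ht1, ht2]
    norm_num
  obtain ⟨r, hr, hball⟩ := Metric.isOpen_iff.1 ho c0 hmem
  have hin : ∀ x, ‖x - c0‖ < r → φ x < h → x ∈ K := by
    intro x hx hφ
    obtain ⟨g0, g1, g2⟩ := hball (mem_ball_iff_norm.2 hx)
    have g3 : 0 ≤ t 2 x := by
      have h3 := congrArg φ (hsum x)
      simp only [map_add, map_smul, map_sub, e0, e1, e2, sub_self, smul_zero, zero_add,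
        smul_eq_mul, mul_zero] at h3
      by_contra hneg
      push Not at hneg
      nlinarith
    have h5 : x = (1 - t 0 x - t 1 x - t 2 x) • a0 + t 0 x • a1 + t 1 x • a2 + t 2 x • y := by
      conv_lhs => rw [hsum x]
      simp only [smul_sub, sub_smul, one_smul]
      abel
    rw [h5]
    have h6 : ∀ i, 0 ≤ (![1 - t 0 x - t 1 x - t 2 x, t 0 x, t 1 x, t 2 x] : Fin 4 → ℝ) i := by
      intro i
      fin_cases i
      · simp; linarith
      · simp; linarith
      · simp; linarith
      · simpa using g3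
    have h7 := hc.sum_mem (t := Finset.univ)
      (w := ![1 - t 0 x - t 1 x - t 2 x, t 0 x, t 1 x, t 2 x]) (z := ![a0, a1, a2, y])
      (fun i _ => h6 i) (by simp [Fin.sum_univ_four]; ring) (by
        intro i _
        fin_cases i
        · exact h0
        · exact h1
        · exact h2
        · exact hy)
    simpa [Fin.sum_univ_four] using h7
  refine ⟨r, hr, fun x hx hφ => ?_⟩
  rw [mem_interior]
  refine ⟨Metric.ball c0 r ∩ {x | φ x < h}, ?_, ?_, ?_, hφ⟩
  · rintro z ⟨hz1, hz2⟩
    exact hin z (mem_ball_iff_norm.1 hz1) hz2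
  · exact Metric.isOpen_ball.inter
      (isOpen_lt (LinearMap.continuous_of_finiteDimensional φ) continuous_const)
  · exact mem_ball_iff_norm.2 hx

end Pool.Agent.K4H47.MM
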