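import Pool.Agent.K4H47.MM.Seg
import Pool.Agent.K4H47.MM.Defs

/-!
# Limits of densest packings of the cut bodies
-/

namespace Pool.Agent.K4H47.MM

open MeasureTheory Filter Topology
open scoped ENNReal
open Pool.Agent.H349R2.Tet Pool.Agent.TH219.DL

variable {K : Set V} {p : V}

theorem vol_pos (hK : Body K) : 0 < (volume K).toReal := by
  apply ENNReal.toReal_pos
  · obtain ⟨-, -, hne⟩ := hK
    have h := isOpen_interior.measure_pos volume hne
    exact (h.trans_le (measure_mono interior_subset)).ne'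
  · exact hK.1.measure_lt_top.ne

/-- a sequence of cuts -/
theorem cuts (hK : Body K) (hp : p ∈ K.extremePoints ℝ) {η : ℝ} (hη : 0 < η) :
    ∃ (ρ : ℝ) (x0 : V) (δ : ℕ → ℝ), 0 < ρ ∧ (∀ n, 0 < δ n ∧ 2 * δ n < ρ) ∧
      Tendsto δ atTop (𝓝 0) ∧ (∀ n, Metric.ball x0 ρ ⊆ interior (Cut K p (δ n))) ∧
      ∀ n, volume (K \ Cut K p (δ n)) ≤ ENNReal.ofReal η := by
  obtain ⟨hKc, hc, x0, hx0⟩ := hK
  have hpi := notMem_int hp
  have hne : x0 ≠ p := fun h => hpi (h ▸ hx0)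
  obtain ⟨ρ1, hρ1, hb1⟩ := Metric.isOpen_iff.1 isOpen_interior x0 hx0
  have hd : 0 < dist x0 p := dist_pos.2 hne
  set ρ : ℝ := min ρ1 (dist x0 p / 2) with hρ
  have hρ0 : 0 < ρ := lt_min hρ1 (by positivity)
  set δ0 : ℝ := min (ρ / 4) (min (1 / 2) (η / 2)) with hδ0
  have hδ00 : 0 < δ0 := lt_min (by positivity) (lt_min (by norm_num) (by positivity))
  have hle : ∀ n : ℕ, δ0 / ((n : ℝ) + 1) ≤ δ0 := by
    intro n
    have : (0 : ℝ) ≤ n := Nat.cast_nonneg n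
    rw [div_le_iff₀ (by positivity)]
    nlinarith
  have hδρ : δ0 ≤ ρ / 4 := min_le_left _ _
  refine ⟨ρ, x0, fun n => δ0 / ((n : ℝ) + 1), hρ0, ?_, ?_, ?_, ?_⟩
  · intro n
    refine ⟨by positivity, ?_⟩
    have := hle n
    linarith
  · exact tendsto_const_div_atTop_nhds_zero_nat δ0 |>.comp (tendsto_add_atTop_nat 1) |>.congr
      fun n => by simp
  · intro n x hx
    have h1 : x ∈ interior K := hb1 (Metric.ball_subset_ball (min_le_left _ _) hx)
    refine int_cut h1 ?_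
    intro hcon
    rw [Metric.mem_closedBall] at hcon
    rw [Metric.mem_ball] at hx
    have h2 : dist x0 p ≤ dist x x0 + dist x p := by
      rw [dist_comm x x0]; exact dist_triangle _ _ _
    have h3 : ρ ≤ dist x0 p / 2 := min_le_right _ _
    have h4 := hle n
    linarith
  · intro n
    have h1 : K \ Cut K p (δ0 / ((n : ℝ) + 1)) ⊆ Metric.ball p δ0 := by
      intro x hx
      by_contra hcon
      apply hx.2
      apply subset_cut
      exact ⟨hx.1, fun h => hcon (Metric.ball_subset_ball (hle n) h)⟩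
    refine (measure_mono h1).trans ?_
    rw [Real.volume_pi_ball _ hδ00]
    apply ENNReal.ofReal_le_ofReal
    simp only [Fintype.card_fin]
    have h2 : 2 * δ0 ≤ 1 := by
      have : δ0 ≤ 1 / 2 := (min_le_right _ _).trans (min_le_left _ _)
      linarith
    have h3 : 2 * δ0 ≤ η := by
      have : δ0 ≤ η / 2 := (min_le_right _ _).trans (min_le_right _ _)
      linarith
    calc (2 * δ0) ^ 3 ≤ (2 * δ0) ^ 1 := pow_le_pow_of_le_one (by positivity) h2 (by norm_num)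
      _ ≤ η := by rw [pow_one]; exact h3

theorem body_cut {x0 : V} {ρ δ : ℝ} (hρ : 0 < ρ) (hK : Body K)
    (h : Metric.ball x0 ρ ⊆ interior (Cut K p δ)) : Body (Cut K p δ) :=
  ⟨cut_compact hK.1, cut_convex, ⟨x0, h (Metric.mem_ball_self hρ)⟩⟩

theorem short {K' : Set V} {x0 u : V} {ρ : ℝ} (hρ : 0 < ρ) (h : Metric.ball x0 ρ ⊆ interior K')
    (hno : ¬ Ov K' u) : ρ ≤ ‖u‖ := by
  by_contra hcon
  push Not at hcon
  refine hno ⟨x0, h (Metric.mem_ball_self hρ), h ?_⟩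
  rw [mem_ball_iff_norm, sub_sub_cancel_left, norm_neg]
  exact hcon

/-- `K` and `w - K` overlap -/
def Rv (A : Set V) (w : V) : Prop := ∃ x ∈ interior A, w - x ∈ interior A

theorem ev_notMem {l : Filter ℕ} {δ : ℕ → ℝ} (hδ : Tendsto δ l (𝓝 0)) {g : ℕ → V} {y : V}
    (hg : Tendsto g l (𝓝 y)) (hy : y ≠ p) : ∀ᶠ n in l, g n ∉ Metric.closedBall p (δ n) := by
  have h1 : Tendsto (fun n => dist (g n) p - δ n) l (𝓝 (dist y p - 0)) :=
    (hg.dist tendsto_const_nhds).sub hδ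
  rw [sub_zero] at h1
  have h2 : ∀ᶠ n in l, 0 < dist (g n) p - δ n := h1.eventually_const_lt (dist_pos.2 hy)
  filter_upwards [h2] with n hn
  rw [Metric.mem_closedBall]
  linarith

theorem ov_open (hp : p ∈ K.extremePoints ℝ) {l : Filter ℕ} {δ : ℕ → ℝ}
    (hδ : Tendsto δ l (𝓝 0)) {f : ℕ → V} {u : V} (hf : Tendsto f l (𝓝 u)) (hov : Ov K u) :
    ∀ᶠ n in l, Ov (Cut K p (δ n)) (f n) := by
  obtain ⟨x, hx, hxu⟩ := hov
  have hpi := notMem_int hp
  have h1 : Tendsto (fun n => x - f n) l (𝓝 (x - u)) := tendsto_const_nhds.sub hf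
  filter_upwards [ev_notMem (p := p) hδ (tendsto_const_nhds (x := x)) (fun h => hpi (h ▸ hx)),
    ev_notMem (p := p) hδ h1 (fun h => hpi (h ▸ hxu)), h1 (isOpen_interior.mem_nhds hxu)] with n a1 a2 a3
  exact ⟨x, int_cut hx a1, int_cut a3 a2⟩

theorem rv_open (hp : p ∈ K.extremePoints ℝ) {l : Filter ℕ} {δ : ℕ → ℝ}
    (hδ : Tendsto δ l (𝓝 0)) {f : ℕ → V} {u : V} (hf : Tendsto f l (𝓝 u)) (hov : Rv K u) :
    ∀ᶠ n in l, Rv (Cut K p (δ n)) (f n) := by
  obtain ⟨x, hx, hxu⟩ := hov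
  have hpi := notMem_int hp
  have h1 : Tendsto (fun n => f n - x) l (𝓝 (u - x)) := hf.sub tendsto_const_nhds
  filter_upwards [ev_notMem (p := p) hδ (tendsto_const_nhds (x := x)) (fun h => hpi (h ▸ hx)),
    ev_notMem (p := p) hδ h1 (fun h => hpi (h ▸ hxu)), h1 (isOpen_interior.mem_nhds hxu)] with n a1 a2 a3
  exact ⟨x, int_cut hx a1, int_cut a3 a2⟩

/-- overlaps of translates give a contact segment in the limit -/
theorem touch_lim (hK : Body K) (hp : p ∈ K.extremePoints ℝ) {U : Ultrafilter ℕ} {δ : ℕ → ℝ}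
    (hδ : Tendsto δ U (𝓝 0)) {ρ : ℝ} (hρ : 0 < ρ) (hδρ : ∀ n, 2 * δ n < ρ) {b : Fin 3 → V}
    {β : ℕ → Fin 3 → V}
    (hb : ∀ x, x ∈ lat b ↔ ∃ f : ℕ → V, (∀ n, f n ∈ lat (β n)) ∧ Tendsto f U (𝓝 x))
    (hpk : ∀ u ∈ lat b, u ≠ 0 → ¬ Ov K u) {w : ℕ → V} (hw : ∀ n, w n ∈ lat (β n))
    (hwρ : ∀ᶠ n in (U : Filter ℕ), ρ ≤ ‖w n‖) (hov : ∀ᶠ n in (U : Filter ℕ), Ov K (w n))
    (hno : ∀ᶠ n in (U : Filter ℕ), ¬ Ov (Cut K p (δ n)) (w n)) :
    ∃ u ∈ lat b, u ≠ 0 ∧ ∃ q, K ∩ tr K u = segment ℝ p q := by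
  classical
  obtain ⟨M, hM⟩ := hK.1.isBounded.subset_closedBall (0 : V)
  have hM' : ∀ x ∈ K, ‖x‖ ≤ M := fun x hx => by simpa using hM hx
  have hbd : ∀ᶠ n in (U : Filter ℕ), ‖w n‖ ≤ 2 * M := by
    filter_upwards [hov] with n ⟨x, hx, hxw⟩
    calc ‖w n‖ = ‖x - (x - w n)‖ := by congr 1; abel
      _ ≤ ‖x‖ + ‖x - w n‖ := norm_sub_le _ _
      _ ≤ 2 * M := by linarith [hM' x (interior_subset hx), hM' _ (interior_subset hxw)]
  obtain ⟨u, -, hu⟩ := ultra_lim hbd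
  have hub : u ∈ lat b := (hb u).2 ⟨w, hw, hu⟩
  have hu0 : u ≠ 0 := by
    intro h
    have h1 : ρ ≤ ‖u‖ := ge_of_tendsto hu.norm hwρ
    rw [h, norm_zero] at h1
    linarith
  -- the main case
  have key : ∀ (w' : ℕ → V) (u' : V), Tendsto w' U (𝓝 u') → u' ∈ lat b → u' ≠ 0 →
      (∀ᶠ n in (U : Filter ℕ), Ov K (w' n)) →
      (∀ᶠ n in (U : Filter ℕ), ∀ x ∈ interior K, x - w' n ∈ interior K →
        x ∈ Metric.closedBall p (δ n)) →
      ∃ u ∈ lat b, u ≠ 0 ∧ ∃ q, K ∩ tr K u = segment ℝ p q := by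
    intro w' u' hw' hub' hu0' hov' hloc
    refine ⟨u', hub', hu0', ?_⟩
    have hpu : p ∈ tr K u' := by
      rw [mem_tr]
      -- points of overlap converge to `p`
      have h1 : ∀ᶠ n in (U : Filter ℕ), ∃ x : V, ‖x - p‖ ≤ δ n ∧ x - w' n ∈ K := by
        filter_upwards [hov', hloc] with n ⟨x, hx, hxw⟩ hn
        refine ⟨x, ?_, interior_subset hxw⟩
        have := hn x hx hxw
        rwa [Metric.mem_closedBall, dist_eq_norm] at this
      have h2 : ∃ x : ℕ → V, ∀ᶠ n in (U : Filter ℕ), ‖x n - p‖ ≤ δ n ∧ x n - w' n ∈ K := by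
        refine ⟨fun n => if h : ∃ x : V, ‖x - p‖ ≤ δ n ∧ x - w' n ∈ K then h.choose else 0, ?_⟩
        filter_upwards [h1] with n hn
        rw [dif_pos hn]
        exact hn.choose_spec
      obtain ⟨x, hx⟩ := h2
      have h3 : Tendsto x U (𝓝 p) := by
        rw [tendsto_iff_norm_sub_tendsto_zero]
        exact squeeze_zero' (Filter.Eventually.of_forall fun n => norm_nonneg _)
          (hx.mono fun n hn => hn.1) hδ
      exact hK.1.isClosed.mem_of_tendsto (h3.sub hw') (hx.mono fun n hn => hn.2)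
    exact seg_of_loc hK hp hpu (hpk u' hub' hu0') hw' hδ hov' hloc
  have halt : ∀ᶠ n in (U : Filter ℕ),
      (∀ x ∈ interior K, x - w n ∈ interior K → x ∈ Metric.closedBall p (δ n)) ∨
      (∀ x ∈ interior K, x - w n ∈ interior K → x - w n ∈ Metric.closedBall p (δ n)) := by
    filter_upwards [hno, hwρ] with n h1 h2
    exact ov_loc hK.2.1 h1 ((hδρ n).trans_le h2)
  rcases Ultrafilter.eventually_or.1 halt with hA | hB
  · exact key w u hu hub hu0 hov hA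
  · refine key (fun n => -w n) (-u) hu.neg (lat_neg hub) (neg_ne_zero.2 hu0) ?_ ?_
    · filter_upwards [hov] with n ⟨x, hx, hxw⟩
      exact ⟨x - w n, hxw, by simpa using hx⟩
    · filter_upwards [hB] with n hn x hx hxw
      have := hn (x + w n) (by simpa using hxw) (by simpa using hx)
      simpa using this

end Pool.Agent.K4H47.MM
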