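import Pool.Agent.K4H47.MM.Geo

/-!
# The limit contact set is a segment
-/

namespace Pool.Agent.K4H47.MM

open MeasureTheory Filter Topology
open Pool.Agent.H349R2.Tet Pool.Agent.TH219.DL

theorem mem_tr {K : Set V} {u x : V} : x ∈ tr K u ↔ x - u ∈ K := by
  constructor
  · rintro ⟨y, hy, rfl⟩
    simpa using hy
  · intro h
    exact ⟨x - u, h, by simp⟩

theorem tr_convex {K : Set V} (hc : Convex ℝ K) (u : V) : Convex ℝ (tr K u) := by
  have : tr K u = (fun x => u + x) '' K := by
    unfold tr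
    apply Set.image_congr
    intro x _
    exact add_comm _ _
  rw [this]
  exact hc.translate u

theorem tr_compact {K : Set V} (hK : IsCompact K) (u : V) : IsCompact (tr K u) :=
  hK.image (by fun_prop)

/-- separation of two bodies that do not overlap -/
theorem separate {K : Set V} (hc : Convex ℝ K) (hne : (interior K).Nonempty) {u : V}
    (hno : ¬ Ov K u) :
    ∃ (φ : V →ₗ[ℝ] ℝ) (h : ℝ), (∀ x ∈ interior K, φ x < h) ∧
      (∀ x, x - u ∈ interior K → h < φ x) ∧ (∀ x ∈ K, φ x ≤ h) ∧ (∀ x ∈ tr K u, h ≤ φ x) := by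
  have h1 : interior (tr K u) = {x | x - u ∈ interior K} := by
    rw [pack_interior_tr]
    ext x
    exact mem_tr
  have hdis : Disjoint (interior K) (interior (tr K u)) := by
    rw [Set.disjoint_left]
    intro x hx hxu
    rw [h1] at hxu
    exact hno ⟨x, hx, hxu⟩
  have hct := tr_convex hc u
  obtain ⟨f, h, hf1, hf2⟩ := geometric_hahn_banach_open_open hc.interior isOpen_interior
    hct.interior isOpen_interior hdis
  have hnet : (interior (tr K u)).Nonempty := by
    obtain ⟨y, hy⟩ := hne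
    refine ⟨y + u, ?_⟩
    rw [h1]
    simpa using hy
  refine ⟨f.toLinearMap, h, hf1, fun x hx => hf2 x (by rw [h1]; exact hx), ?_, ?_⟩
  · intro x hx
    have h2 := closure_int hc hne hx
    have h3 : closure (interior K) ⊆ {x | f x ≤ h} :=
      closure_minimal (fun y hy => (hf1 y hy).le) (isClosed_le f.continuous continuous_const)
    exact h3 h2
  · intro x hx
    have h2 := closure_int hct hnet hx
    have h3 : closure (interior (tr K u)) ⊆ {x | h ≤ f x} :=
      closure_minimal (fun y hy => (hf2 y hy).le) (isClosed_le continuous_const f.continuous)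
    exact h3 h2

/-- a compact convex set with an extreme point `p`, all whose points are collinear with `p`,
is a segment ending in `p` -/
theorem seg_of_collinear {C : Set V} (hC : IsCompact C) (hc : Convex ℝ C) {p : V}
    (hp : p ∈ C.extremePoints ℝ)
    (hcol : ∀ a1 ∈ C, ∀ a2 ∈ C, ¬ LinearIndependent ℝ ![a1 - p, a2 - p]) :
    ∃ q, C = segment ℝ p q := by
  obtain ⟨q, hq, hmax⟩ := hC.exists_isMaxOn ⟨p, hp.1⟩
    (by fun_prop : ContinuousOn (fun x : V => ‖x - p‖) C)
  refine ⟨q, Set.Subset.antisymm ?_ (hc.segment_subset hp.1 hq)⟩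
  intro a ha
  have hle : ‖a - p‖ ≤ ‖q - p‖ := hmax ha
  by_cases hd : q - p = 0
  · rw [hd, norm_zero] at hle
    have : a = p := by
      have := norm_le_zero_iff.1 hle
      exact sub_eq_zero.1 this
    rw [this]
    exact left_mem_segment ℝ p q
  · have h1 := hcol q hq a ha
    rw [LinearIndependent.pair_iff' hd] at h1
    push Not at h1
    obtain ⟨t, ht⟩ := h1
    have hq0 : 0 < ‖q - p‖ := norm_pos_iff.2 hd
    have ht1 : |t| ≤ 1 := by
      rw [← ht, norm_smul, Real.norm_eq_abs] at hle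
      nlinarith
    have hap : a = p + t • (q - p) := by rw [ht]; abel
    have ht0 : 0 ≤ t := by
      by_contra hneg
      push Not at hneg
      have hopen : p ∈ openSegment ℝ a q := by
        refine ⟨(1 - t)⁻¹, (-t) * (1 - t)⁻¹, ?_, ?_, ?_, ?_⟩
        · have : 0 < 1 - t := by linarith
          positivity
        · have : 0 < 1 - t := by linarith
          have : 0 < -t := by linarith
          positivity
        · have : (1 - t) ≠ 0 := by linarith
          field_simp
          ring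
        · have h0 : (1 - t) ≠ 0 := by linarith
          have h2 : (1 - t)⁻¹ • a + ((-t) * (1 - t)⁻¹) • q = (1 - t)⁻¹ • ((1 - t) • p) := by
            rw [hap, mul_comm (-t) _, mul_smul, ← smul_add]
            congr 1
            simp only [smul_sub, sub_smul, one_smul, neg_smul]
            abel
          rw [h2, smul_smul, inv_mul_cancel₀ h0, one_smul]
      have h3 := hp.2 ha hq hopen
      rw [hap] at h3
      have h4 : t • (q - p) = 0 := by simpa using h3
      rcases smul_eq_zero.1 h4 with h | h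
      · linarith
      · exact hd h
    rw [segment_eq_image']
    refine ⟨t, ⟨ht0, (le_abs_self t).trans ht1⟩, ?_⟩
    exact hap.symm

/-- the limit contact set is a segment ending in `p` -/
theorem seg_of_loc {K : Set V} (hK : Body K) {p u : V} (hp : p ∈ K.extremePoints ℝ)
    (hpu : p ∈ tr K u) (hno : ¬ Ov K u) {l : Filter ℕ} [l.NeBot] {w : ℕ → V} {δ : ℕ → ℝ}
    (hw : Tendsto w l (𝓝 u)) (hδ : Tendsto δ l (𝓝 0))
    (hov : ∀ᶠ n in l, Ov K (w n))
    (hloc : ∀ᶠ n in l, ∀ x ∈ interior K, x - w n ∈ interior K → x ∈ Metric.closedBall p (δ n)) :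
    ∃ q, K ∩ tr K u = segment ℝ p q := by
  obtain ⟨hKc, hc, hne⟩ := hK
  have hct := tr_convex hc u
  refine seg_of_collinear (hKc.inter (tr_compact hKc u)) (hc.inter hct)
    (inter_extremePoints_subset_extremePoints_of_subset Set.inter_subset_left ⟨⟨hp.1, hpu⟩, hp⟩) ?_
  intro a1 ha1 a2 ha2 hli
  obtain ⟨φ, h, hφ1, hφ2, hφ3, hφ4⟩ := separate hc hne hno
  have hφC : ∀ x ∈ K ∩ tr K u, φ x = h := fun x hx => le_antisymm (hφ3 x hx.1) (hφ4 x hx.2)
  obtain ⟨y, hy⟩ := hne
  obtain ⟨r1, hr1, hb1⟩ := half_ball hc hp.1 ha1.1 ha2.1 (interior_subset hy) φ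
    (hφC p ⟨hp.1, hpu⟩) (hφC a1 ha1) (hφC a2 ha2) (hφ1 y hy) hli
  have hyu : y + u ∈ tr K u := mem_tr.2 (by simpa using interior_subset hy)
  obtain ⟨r2, hr2, hb2⟩ := half_ball hct hpu ha1.2 ha2.2 hyu (-φ) (h := -h)
    (by rw [LinearMap.neg_apply, hφC p ⟨hp.1, hpu⟩])
    (by rw [LinearMap.neg_apply, hφC a1 ha1]) (by rw [LinearMap.neg_apply, hφC a2 ha2])
    (by
      rw [LinearMap.neg_apply]
      have := hφ2 (y + u) (by simpa using hy)
      linarith) hli
  set c0 : V := (3 : ℝ)⁻¹ • (p + a1 + a2) with hc0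
  have hdiff : Tendsto (fun n => (2 : ℝ)⁻¹ • (w n - u)) l (𝓝 0) := by
    have h1 : Tendsto (fun n => w n - u) l (𝓝 (u - u)) := hw.sub tendsto_const_nhds
    rw [sub_self] at h1
    have h2 := h1.const_smul (2 : ℝ)⁻¹
    rwa [smul_zero] at h2
  have hsm : ∀ r > 0, ∀ᶠ n in l, ‖(2 : ℝ)⁻¹ • (w n - u)‖ < r := by
    intro r hr
    have := hdiff.norm
    rw [norm_zero] at this
    exact this.eventually_lt_const hr
  have hz : ∀ᶠ n in l, ‖c0 + (2 : ℝ)⁻¹ • (w n - u) - p‖ ≤ δ n := by
    filter_upwards [hov, hloc, hsm r1 hr1, hsm r2 hr2] with n ⟨x, hx, hxw⟩ hn h1 h2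
    have hneg : φ (w n - u) < 0 := by
      have h3 := hφ1 x hx
      have h4 := hφ2 (x - w n + u) (by simpa using hxw)
      have h5 : φ (x - w n + u) = φ x - φ (w n - u) := by
        simp only [map_add, map_sub]; ring
      rw [h5] at h4
      linarith
    have hhalf : φ ((2 : ℝ)⁻¹ • (w n - u)) < 0 := by
      rw [map_smul, smul_eq_mul]; linarith
    have hφc0 : φ c0 = h := by
      rw [hc0, map_smul, map_add, map_add, hφC p ⟨hp.1, hpu⟩, hφC a1 ha1, hφC a2 ha2, smul_eq_mul]
      ring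
    have h3 : c0 + (2 : ℝ)⁻¹ • (w n - u) ∈ interior K := by
      apply hb1
      · rw [add_sub_cancel_left]; exact h1
      · rw [map_add, hφc0]; linarith
    have h4 : c0 + (2 : ℝ)⁻¹ • (w n - u) - w n ∈ interior K := by
      have h5 : c0 - (2 : ℝ)⁻¹ • (w n - u) ∈ interior (tr K u) := by
        apply hb2
        · rw [sub_sub_cancel_left, norm_neg]; exact h2
        · rw [LinearMap.neg_apply, map_sub, hφc0]; linarith
      rw [pack_interior_tr, mem_tr] at h5
      have e : c0 + (2 : ℝ)⁻¹ • (w n - u) - w n = c0 - (2 : ℝ)⁻¹ • (w n - u) - u := by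
        have h6 : w n - u = (2 : ℝ)⁻¹ • (w n - u) + (2 : ℝ)⁻¹ • (w n - u) := by
          rw [← add_smul]; norm_num
        have h7 : w n = (2 : ℝ)⁻¹ • (w n - u) + (2 : ℝ)⁻¹ • (w n - u) + u := by
          rw [← h6]; abel
        calc c0 + (2 : ℝ)⁻¹ • (w n - u) - w n
            = c0 + (2 : ℝ)⁻¹ • (w n - u)
              - ((2 : ℝ)⁻¹ • (w n - u) + (2 : ℝ)⁻¹ • (w n - u) + u) := by rw [← h7]
          _ = _ := by abel
      rw [e]; exact h5
    have h5 := hn _ h3 h4
    rwa [Metric.mem_closedBall, dist_eq_norm] at h5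
  have hlim : Tendsto (fun n => ‖c0 + (2 : ℝ)⁻¹ • (w n - u) - p‖) l (𝓝 ‖c0 + 0 - p‖) :=
    ((tendsto_const_nhds.add hdiff).sub tendsto_const_nhds).norm
  have h0 : ‖c0 + 0 - p‖ ≤ 0 := le_of_tendsto_of_tendsto hlim hδ hz
  rw [add_zero, norm_le_zero_iff, sub_eq_zero] at h0
  have h1 : (a1 - p) + (a2 - p) = 0 := by
    have h2 : (3 : ℝ) • c0 = p + a1 + a2 := by
      rw [hc0, smul_smul]; norm_num
    rw [h0] at h2
    have h3 : (3 : ℝ) • p = p + p + p := by
      rw [show (3 : ℝ) = 1 + 1 + 1 by norm_num, add_smul, add_smul, one_smul]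
    rw [h3] at h2
    have h4 : p + a1 + a2 - (p + p + p) = 0 := by rw [h2]; abel
    rw [← h4]; abel
  have h2 := (Fintype.linearIndependent_iff.1 hli) ![1, 1] (by
    simpa [Fin.sum_univ_two] using h1)
  have h3 := h2 0
  simp at h3

end Pool.Agent.K4H47.MM
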