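import Pool.Agent.K4H47.MM.Main

/-!
# Every extreme point of a minimiser is a touching point in a densest packing
-/

namespace Pool.Agent.K4H47.MM

open MeasureTheory Filter Topology
open scoped ENNReal
open Pool.Agent.H349R2.Tet Pool.Agent.TH219.DL

variable {K : Set V} {p : V}

theorem dL_real (hK : Body K) : ∃ d : ℝ, 0 < d ∧ dL K = ENNReal.ofReal d := by
  have h1 : dL K ≤ 1 := by
    unfold dL
    refine iSup₂_le fun b hb => ?_
    rw [den_L hK.1 hb.1, ← ENNReal.ofReal_one]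
    apply ENNReal.ofReal_le_ofReal
    rw [div_le_one (abs_dt_pos hb.1)]
    exact vol_le_dt hK hb.1 ((packL_iff hb.1).1 hb.2)
  have h2 := dL_low hK
  have hne : dL K ≠ ⊤ := (h1.trans_lt ENNReal.one_lt_top).ne
  have hpos : 0 < dL K := lt_of_lt_of_le (ENNReal.ofReal_pos.2 (by norm_num)) h2
  exact ⟨(dL K).toReal, ENNReal.toReal_pos hpos.ne' hne, (ENNReal.ofReal_toReal hne).symm⟩

theorem dLs_real (hK : Body K) : ∃ d : ℝ, 0 < d ∧ dLs K = ENNReal.ofReal d := by
  have h1 : dLs K ≤ ENNReal.ofReal 2 := by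
    unfold dLs
    refine iSup_le fun v => iSup₂_le fun b hb => ?_
    rw [den_Ls hK hb.1 hb.2]
    apply ENNReal.ofReal_le_ofReal
    rw [div_le_iff₀ (abs_dt_pos hb.1)]
    have := vol_le_dt hK hb.1 ((packLs_iff.1 hb.2).1)
    linarith
  have h2 := dLs_low hK
  have hne : dLs K ≠ ⊤ := (h1.trans_lt ENNReal.ofReal_lt_top).ne
  have hpos : 0 < dLs K := lt_of_lt_of_le (ENNReal.ofReal_pos.2 (by norm_num)) h2
  exact ⟨(dLs K).toReal, ENNReal.toReal_pos hpos.ne' hne, (ENNReal.ofReal_toReal hne).symm⟩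

/-- limits of lattices that pack the cut bodies -/
theorem limit_lat (hp : p ∈ K.extremePoints ℝ) {U : Ultrafilter ℕ} {δ : ℕ → ℝ}
    (hδ : Tendsto δ U (𝓝 0)) {ρ : ℝ} {x0 : V} (hρ : 0 < ρ)
    (hball : ∀ n, Metric.ball x0 ρ ⊆ interior (Cut K p (δ n))) {β : ℕ → Fin 3 → V}
    (hβ : ∀ n, LinearIndependent ℝ (β n))
    (hno : ∀ n, ∀ u ∈ lat (β n), u ≠ 0 → ¬ Ov (Cut K p (δ n)) u) {A B : ℝ} (hA : 0 < A)
    (hD : ∀ n, A * |dt (β n)| < B) :
    ∃ (b : Fin 3 → V) (c : ℕ → Fin 3 → V), LinearIndependent ℝ b ∧ Tendsto c U (𝓝 b) ∧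
      (∀ᶠ n in (U : Filter ℕ), lat (c n) = lat (β n)) ∧
      (∀ x, x ∈ lat b ↔ ∃ f : ℕ → V, (∀ n, f n ∈ lat (β n)) ∧ Tendsto f U (𝓝 x)) ∧
      (∀ u ∈ lat b, u ≠ 0 → ¬ Ov K u) ∧ A * |dt b| ≤ B := by
  obtain ⟨b, c, hb, hc, hcβ, hlim⟩ := select (U := U) (r := ρ) (D := B / A) hρ hβ
    (fun n u hu hu0 => short hρ (hball n) (hno n u hu hu0)) (fun n => by
      rw [le_div_iff₀ hA, mul_comm]; exact (hD n).le)
  refine ⟨b, c, hb, hc, hcβ, hlim, ?_, ?_⟩
  · intro u hu hu0 hov
    obtain ⟨f, hf, hfu⟩ := (hlim u).1 hu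
    have h1 := ov_open hp hδ hfu hov
    have h2 : ∀ᶠ n in (U : Filter ℕ), f n ≠ 0 := hfu.eventually_ne hu0
    obtain ⟨n, hn1, hn2⟩ := (h1.and h2).exists
    exact hno n (f n) (hf n) hn2 hn1
  · have hcont : Continuous (fun b : Fin 3 → V => |dt b|) := by
      unfold dt
      exact (Continuous.matrix_det (by exact continuous_id)).abs
    have h1 : Tendsto (fun n => A * |dt (c n)|) U (𝓝 (A * |dt b|)) :=
      ((hcont.tendsto b).comp hc).const_mul A
    have hdt : Tendsto (fun n => dt (c n)) U (𝓝 (dt b)) := by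
      have : Continuous (fun b : Fin 3 → V => dt b) := by
        unfold dt
        exact Continuous.matrix_det (by exact continuous_id)
      exact (this.tendsto b).comp hc
    have hcli : ∀ᶠ n in (U : Filter ℕ), dt (c n) ≠ 0 :=
      hdt.eventually_ne ((dt_ne_zero_iff b).2 hb)
    refine le_of_tendsto h1 ?_
    filter_upwards [hcβ, hcli] with n hn hn2
    rw [dt_eq_of_lat ((dt_ne_zero_iff _).1 hn2) (hβ n) hn]
    exact (hD n).le

/-- a cut body has a lattice packing which is too dense for `K` -/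
theorem pick_L (hK : Body K) {K' : Set V} (hK' : Body K') (hlt : volume K' < volume K)
    {d : ℝ} (hd0 : 0 < d) (hd : dL K = ENNReal.ofReal d) (hle : dL K ≤ dL K') :
    ∃ b : Fin 3 → V, LinearIndependent ℝ b ∧ IsPack K' (famL b) ∧
      d * |dt b| < (volume K).toReal := by
  have hv := vol_pos hK
  have hv' := vol_pos hK'
  have hvv : (volume K').toReal < (volume K).toReal :=
    ENNReal.toReal_strict_mono hK.1.measure_lt_top.ne hlt
  have h1 : ENNReal.ofReal (d * ((volume K').toReal / (volume K).toReal)) < dL K' := by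
    refine lt_of_lt_of_le ?_ hle
    rw [hd, ENNReal.ofReal_lt_ofReal_iff hd0]
    have : (volume K').toReal / (volume K).toReal < 1 := (div_lt_one hv).2 hvv
    nlinarith
  unfold dL at h1
  rw [lt_iSup_iff] at h1
  obtain ⟨b, h1⟩ := h1
  rw [lt_iSup_iff] at h1
  obtain ⟨hb, h1⟩ := h1
  refine ⟨b, hb.1, hb.2, ?_⟩
  have hb0 := abs_dt_pos hb.1
  rw [den_L hK'.1 hb.1, ENNReal.ofReal_lt_ofReal_iff (by positivity)] at h1
  rw [← mul_div_assoc, div_lt_div_iff₀ hv hb0] at h1
  have h2 : (volume K').toReal * (d * |dt b|) < (volume K').toReal * (volume K).toReal := by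
    nlinarith
  exact lt_of_mul_lt_mul_left h2 hv'.le

theorem pick_Ls (hK : Body K) {K' : Set V} (hK' : Body K') (hlt : volume K' < volume K)
    {d : ℝ} (hd0 : 0 < d) (hd : dLs K = ENNReal.ofReal d) (hle : dLs K ≤ dLs K') :
    ∃ (v : V) (b : Fin 3 → V), LinearIndependent ℝ b ∧ IsPack K' (famLs v b) ∧
      d * |dt b| < 2 * (volume K).toReal := by
  have hv := vol_pos hK
  have hv' := vol_pos hK'
  have hvv : (volume K').toReal < (volume K).toReal :=
    ENNReal.toReal_strict_mono hK.1.measure_lt_top.ne hlt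
  have h1 : ENNReal.ofReal (d * ((volume K').toReal / (volume K).toReal)) < dLs K' := by
    refine lt_of_lt_of_le ?_ hle
    rw [hd, ENNReal.ofReal_lt_ofReal_iff hd0]
    have : (volume K').toReal / (volume K).toReal < 1 := (div_lt_one hv).2 hvv
    nlinarith
  unfold dLs at h1
  rw [lt_iSup_iff] at h1
  obtain ⟨v, h1⟩ := h1
  rw [lt_iSup_iff] at h1
  obtain ⟨b, h1⟩ := h1
  rw [lt_iSup_iff] at h1
  obtain ⟨hb, h1⟩ := h1
  refine ⟨v, b, hb.1, hb.2, ?_⟩
  have hb0 := abs_dt_pos hb.1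
  rw [den_Ls hK' hb.1 hb.2, ENNReal.ofReal_lt_ofReal_iff (by positivity)] at h1
  rw [← mul_div_assoc, div_lt_div_iff₀ hv hb0] at h1
  have h2 : (volume K').toReal * (d * |dt b|)
      < (volume K').toReal * (2 * (volume K).toReal) := by
    nlinarith
  exact lt_of_mul_lt_mul_left h2 hv'.le

/-- **extreme points of minimisers of `δ_L`** -/
theorem touch_L (hK : Body K) (hmin : CutMin dL K) (hp : p ∈ K.extremePoints ℝ) :
    ∃ S ∈ DensL K, TouchT K S p := by
  obtain ⟨η, hη, hmin⟩ := hmin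
  obtain ⟨d, hd0, hd⟩ := dL_real hK
  obtain ⟨ρ, x0, δ, hρ, hδ1, hδ2, hball, hvol⟩ := cuts hK hp hη
  have hbody : ∀ n, Body (Cut K p (δ n)) := fun n => body_cut hρ hK (hball n)
  have hex : ∀ n, ∃ b : Fin 3 → V, LinearIndependent ℝ b ∧ IsPack (Cut K p (δ n)) (famL b) ∧
      d * |dt b| < (volume K).toReal := fun n =>
    pick_L hK (hbody n) (vol_cut_lt hK hp (hδ1 n).1) hd0 hd
      (hmin _ (hbody n) (cut_subset hK.2.1) (hvol n))
  choose β hβ hβp hβd using hex
  have hβno : ∀ n, ∀ u ∈ lat (β n), u ≠ 0 → ¬ Ov (Cut K p (δ n)) u := fun n =>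
    (packL_iff (hβ n)).1 (hβp n)
  let U : Ultrafilter ℕ := Filter.hyperfilter ℕ
  have hδU : Tendsto δ U (𝓝 0) := hδ2.mono_left Nat.hyperfilter_le_atTop
  obtain ⟨b, c, hb, hc, hcβ, hlim, hpk, hdt⟩ := limit_lat hp hδU hρ hball hβ hβno hd0 hβd
  have hIP : IsPack K (famL b) := (packL_iff hb).2 hpk
  have hb0 := abs_dt_pos hb
  refine ⟨famL b, ⟨b, hb, rfl, hIP, ?_⟩, ?_⟩
  · apply le_antisymm
    · unfold dL
      exact le_iSup₂_of_le b ⟨hb, hIP⟩ le_rfl
    · rw [hd, den_L hK.1 hb]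
      apply ENNReal.ofReal_le_ofReal
      rw [le_div_iff₀ hb0]
      exact hdt
  · -- the overlapping translates
    have hw : ∀ n, ∃ w ∈ lat (β n), w ≠ 0 ∧ Ov K w := by
      intro n
      by_contra hcon
      push Not at hcon
      have h1 : IsPack K (famL (β n)) := (packL_iff (hβ n)).2 hcon
      have h2 : den K (famL (β n)) ≤ dL K := by
        unfold dL
        exact le_iSup₂_of_le (β n) ⟨hβ n, h1⟩ le_rfl
      rw [den_L hK.1 (hβ n), hd, ENNReal.ofReal_le_ofReal_iff hd0.le,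
        div_le_iff₀ (abs_dt_pos (hβ n))] at h2
      linarith [hβd n]
    choose w hw1 hw2 hw3 using hw
    obtain ⟨u, hu, hu0, q, hq⟩ := touch_lim hK hp hδU hρ (fun n => (hδ1 n).2) hlim hpk hw1
      (Filter.Eventually.of_forall fun n => short hρ (hball n) (hβno n _ (hw1 n) (hw2 n)))
      (Filter.Eventually.of_forall hw3)
      (Filter.Eventually.of_forall fun n => hβno n _ (hw1 n) (hw2 n))
    refine ⟨u, hu0, ⟨rfl, hu⟩, q, ?_⟩
    rw [mem_false]
    exact hq

/-- **extreme points of minimisers of `δ_{L*}`** -/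
theorem touch_Ls (hK : Body K) (hmin : CutMin dLs K) (hp : p ∈ K.extremePoints ℝ) :
    ∃ S ∈ DensLs K, TouchT K S p ∨ TouchR K S p := by
  classical
  obtain ⟨η, hη, hmin⟩ := hmin
  obtain ⟨d, hd0, hd⟩ := dLs_real hK
  obtain ⟨ρ, x0, δ, hρ, hδ1, hδ2, hball, hvol⟩ := cuts hK hp hη
  have hbody : ∀ n, Body (Cut K p (δ n)) := fun n => body_cut hρ hK (hball n)
  have hex : ∀ n, ∃ (v : V) (b : Fin 3 → V), LinearIndependent ℝ b ∧
      IsPack (Cut K p (δ n)) (famLs v b) ∧ d * |dt b| < 2 * (volume K).toReal := fun n =>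
    pick_Ls hK (hbody n) (vol_cut_lt hK hp (hδ1 n).1) hd0 hd
      (hmin _ (hbody n) (cut_subset hK.2.1) (hvol n))
  choose ν β hβ hβp hβd using hex
  have hβno : ∀ n, ∀ u ∈ lat (β n), u ≠ 0 → ¬ Ov (Cut K p (δ n)) u := fun n =>
    (packLs_iff.1 (hβp n)).1
  have hβnr : ∀ n, ∀ u ∈ lat (β n), ¬ Rv (Cut K p (δ n)) (ν n + u) := fun n =>
    (packLs_iff.1 (hβp n)).2
  let U : Ultrafilter ℕ := Filter.hyperfilter ℕ
  have hδU : Tendsto δ U (𝓝 0) := hδ2.mono_left Nat.hyperfilter_le_atTop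
  obtain ⟨b, c, hb, hc, hcβ, hlim, hpk, hdt⟩ := limit_lat hp hδU hρ hball hβ hβno hd0 hβd
  have hb0 := abs_dt_pos hb
  -- bounded representatives of `ν n`
  have hdtc : Tendsto (fun n => dt (c n)) U (𝓝 (dt b)) := by
    have : Continuous (fun b : Fin 3 → V => dt b) := by
      unfold dt
      exact Continuous.matrix_det (by exact continuous_id)
    exact (this.tendsto b).comp hc
  have hcli : ∀ᶠ n in (U : Filter ℕ), dt (c n) ≠ 0 :=
    hdtc.eventually_ne ((dt_ne_zero_iff b).2 hb)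
  have hred : ∀ n, ∃ ν' : V, ν' - ν n ∈ lat (β n) ∧ (dt (c n) ≠ 0 → lat (c n) = lat (β n) →
      ‖ν'‖ ≤ ∑ i, ‖c n i‖) := by
    intro n
    by_cases hn : dt (c n) ≠ 0
    · by_cases hn2 : lat (c n) = lat (β n)
      · have hli : LinearIndependent ℝ (c n) := (dt_ne_zero_iff _).1 hn
        have hcard : Fintype.card (Fin 3) = Module.finrank ℝ V := by simp
        let C : Module.Basis (Fin 3) ℝ V := basisOfLinearIndependentOfCardEqFinrank hli hcard
        have hC : ⇑C = c n := coe_basisOfLinearIndependentOfCardEqFinrank hli hcard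
        refine ⟨ZSpan.fract C (ν n), ?_, fun _ _ => ?_⟩
        · rw [← hn2, ZSpan.fract_apply]
          have h1 : (ZSpan.floor C (ν n) : V) ∈ lat (c n) := by
            rw [lat_span, ← hC]
            exact (ZSpan.floor C (ν n)).2
          have h2 := lat_neg h1
          have e : ν n - (ZSpan.floor C (ν n) : V) - ν n = -(ZSpan.floor C (ν n) : V) := by abel
          rw [e]; exact h2
        · have h1 := ZSpan.norm_fract_le C (ν n)
          rwa [hC] at h1
      · exact ⟨ν n, by rw [sub_self]; exact pack_zero_mem _, fun _ h => absurd h hn2⟩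
    · exact ⟨ν n, by rw [sub_self]; exact pack_zero_mem _, fun h => absurd h hn⟩
  choose ν' hν' hνb using hred
  have hbd : ∀ᶠ n in (U : Filter ℕ), ‖ν' n‖ ≤ ∑ i, ‖b i‖ + 1 := by
    have h1 : Tendsto (fun n => ∑ i, ‖c n i‖) U (𝓝 (∑ i, ‖b i‖)) :=
      tendsto_finsetSum _ fun i _ => (((continuous_apply i).tendsto b).comp hc).norm
    have h2 : ∀ᶠ n in (U : Filter ℕ), ∑ i, ‖c n i‖ < ∑ i, ‖b i‖ + 1 :=
      h1.eventually_lt_const (by linarith)
    filter_upwards [hcβ, hcli, h2] with n a1 a2 a3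
    exact (hνb n a2 a1).trans a3.le
  obtain ⟨v, -, hv⟩ := ultra_lim hbd
  -- the limit is a packing of `K`
  have hpr : ∀ u ∈ lat b, ¬ Rv K (v + u) := by
    intro u hu hrv
    obtain ⟨f, hf, hfu⟩ := (hlim u).1 hu
    obtain ⟨n, hn⟩ := (rv_open hp hδU (hv.add hfu) hrv).exists
    refine hβnr n (ν' n - ν n + f n) (lat_add (hν' n) (hf n)) ?_
    have e : ν n + (ν' n - ν n + f n) = ν' n + f n := by abel
    rw [e]; exact hn
  have hIP : IsPack K (famLs v b) := packLs_iff.2 ⟨hpk, hpr⟩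
  refine ⟨famLs v b, ⟨v, b, hb, rfl, hIP, ?_⟩, ?_⟩
  · apply le_antisymm
    · unfold dLs
      exact le_iSup_of_le v (le_iSup₂_of_le b ⟨hb, hIP⟩ le_rfl)
    · rw [hd, den_Ls hK hb hIP]
      apply ENNReal.ofReal_le_ofReal
      rw [le_div_iff₀ hb0]
      exact hdt
  · have hw : ∀ n, (∃ w ∈ lat (β n), w ≠ 0 ∧ Ov K w) ∨ ∃ w ∈ lat (β n), Rv K (ν n + w) := by
      intro n
      by_contra hcon
      push Not at hcon
      have h1 : IsPack K (famLs (ν n) (β n)) := packLs_iff.2 hcon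
      have h2 : den K (famLs (ν n) (β n)) ≤ dLs K := by
        unfold dLs
        exact le_iSup_of_le (ν n) (le_iSup₂_of_le (β n) ⟨hβ n, h1⟩ le_rfl)
      rw [den_Ls hK (hβ n) h1, hd, ENNReal.ofReal_le_ofReal_iff hd0.le,
        div_le_iff₀ (abs_dt_pos (hβ n))] at h2
      linarith [hβd n]
    have hw' : ∀ᶠ n in (U : Filter ℕ), (∃ w ∈ lat (β n), w ≠ 0 ∧ Ov K w) ∨
        ∃ w ∈ lat (β n), Rv K (ν n + w) := Filter.Eventually.of_forall hw
    rcases Ultrafilter.eventually_or.1 hw' with hA | hB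
    · left
      let w : ℕ → V := fun n => if h : ∃ w ∈ lat (β n), w ≠ 0 ∧ Ov K w then h.choose else 0
      have hwl : ∀ n, w n ∈ lat (β n) := by
        intro n
        by_cases h : ∃ w ∈ lat (β n), w ≠ 0 ∧ Ov K w
        · simp only [w, dif_pos h]; exact h.choose_spec.1
        · simp only [w, dif_neg h]; exact pack_zero_mem _
      have hwe : ∀ᶠ n in (U : Filter ℕ), w n ≠ 0 ∧ Ov K (w n) := by
        filter_upwards [hA] with n h
        simp only [w, dif_pos h]
        exact h.choose_spec.2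
      obtain ⟨u, hu, hu0, q, hq⟩ := touch_lim hK hp hδU hρ (fun n => (hδ1 n).2) hlim hpk hwl
        (hwe.mono fun n h => short hρ (hball n) (hβno n _ (hwl n) h.1))
        (hwe.mono fun n h => h.2)
        (hwe.mono fun n h => hβno n _ (hwl n) h.1)
      refine ⟨u, hu0, Or.inl ⟨rfl, hu⟩, q, ?_⟩
      rw [mem_false]
      exact hq
    · right
      let w : ℕ → V := fun n => if h : ∃ w ∈ lat (β n), Rv K (ν n + w) then h.choose else 0
      have hwl : ∀ n, w n ∈ lat (β n) := by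
        intro n
        by_cases h : ∃ w ∈ lat (β n), Rv K (ν n + w)
        · simp only [w, dif_pos h]; exact h.choose_spec.1
        · simp only [w, dif_neg h]; exact pack_zero_mem _
      have hwe : ∀ᶠ n in (U : Filter ℕ), Rv K (ν n + w n) := by
        filter_upwards [hB] with n h
        simp only [w, dif_pos h]
        exact h.choose_spec.2
      -- the centre of the overlap is close to `p`
      have hcen : ∀ᶠ n in (U : Filter ℕ), ‖(2 : ℝ)⁻¹ • (ν n + w n) - p‖ ≤ δ n := by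
        filter_upwards [hwe] with n ⟨x, hx, hxw⟩
        have hmid : (2 : ℝ)⁻¹ • (ν n + w n) ∈ interior K := by
          have h1 := hK.2.1.interior hx hxw (a := (2 : ℝ)⁻¹) (b := (2 : ℝ)⁻¹) (by norm_num)
            (by norm_num) (by norm_num)
          rw [← smul_add] at h1
          have e : x + (ν n + w n - x) = ν n + w n := by abel
          rwa [e] at h1
        by_contra hcon
        have hnc : (2 : ℝ)⁻¹ • (ν n + w n) ∉ Metric.closedBall p (δ n) := by
          rw [Metric.mem_closedBall, dist_eq_norm]; exact hcon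
        refine hβnr n (w n) (hwl n) ⟨_, int_cut hmid hnc, ?_⟩
        have e : ν n + w n - (2 : ℝ)⁻¹ • (ν n + w n) = (2 : ℝ)⁻¹ • (ν n + w n) := by
          have h2 : ν n + w n = (2 : ℝ)⁻¹ • (ν n + w n) + (2 : ℝ)⁻¹ • (ν n + w n) := by
            rw [← add_smul]; norm_num
          nth_rewrite 1 [h2]
          abel
        rw [e]
        exact int_cut hmid hnc
      have hlim1 : Tendsto (fun n => (2 : ℝ)⁻¹ • (ν n + w n)) U (𝓝 p) := by
        rw [tendsto_iff_norm_sub_tendsto_zero]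
        exact squeeze_zero' (Filter.Eventually.of_forall fun n => norm_nonneg _) hcen hδU
      have hlim2 : Tendsto (fun n => ν n + w n) U (𝓝 ((2 : ℝ) • p)) := by
        have h1 := hlim1.const_smul (2 : ℝ)
        refine h1.congr fun n => ?_
        rw [smul_smul]; norm_num
      have hmem : (2 : ℝ) • p - v ∈ lat b := by
        refine (hlim _).2 ⟨fun n => w n - (ν' n - ν n), fun n => pack_sub_mem (hwl n) (hν' n), ?_⟩
        refine (hlim2.sub hv).congr fun n => ?_
        abel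
      refine ⟨Or.inr ⟨rfl, (2 : ℝ) • p - v, hmem, by simp⟩, ?_⟩
      ext x
      simp only [Set.mem_inter_iff, Set.mem_singleton_iff]
      constructor
      · rintro ⟨hx, y, hy, hyx⟩
        have hyx' : -y + (2 : ℝ) • p = x := by simpa using hyx
        have hseg : p ∈ openSegment ℝ x y := by
          refine ⟨2⁻¹, 2⁻¹, by norm_num, by norm_num, by norm_num, ?_⟩
          rw [← smul_add, ← hyx']
          have e : -y + (2 : ℝ) • p + y = (2 : ℝ) • p := by abel
          rw [e, smul_smul]; norm_num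
        exact hp.2 hx hy hseg
      · rintro rfl
        refine ⟨hp.1, x, hp.1, ?_⟩
        simp only [if_true]
        rw [two_smul]; abel

end Pool.Agent.K4H47.MM
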